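import Pool.Agent.Rabbit.Circles

/-!
The action of the homeomorphism group of the model on the tree of circles.
-/

open Set Topology

namespace Pool.Agent.Rabbit

variable {m : ℕ}

theorem isCircle_image (f : Rab m ≃ₜ Rab m) {K : Set (Rab m)} (hK : IsCircle K) :
    IsCircle (f '' K) := by
  obtain ⟨e⟩ := hK
  exact ⟨(f.image K).symm.trans e⟩

theorem exists_act (f : Rab m ≃ₜ Rab m) (c : Idx m) : ∃ c', f '' circ c = circ c' :=
  exists_circ_of_isCircle (isCircle_image f (isCircle_circ c))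

/-- The index of the image circle. -/
noncomputable def act (f : Rab m ≃ₜ Rab m) (c : Idx m) : Idx m := (exists_act f c).choose

theorem image_circ (f : Rab m ≃ₜ Rab m) (c : Idx m) : f '' circ c = circ (act f c) :=
  (exists_act f c).choose_spec

theorem mem_circ_act {f : Rab m ≃ₜ Rab m} {c : Idx m} {x : Rab m} (h : x ∈ circ c) :
    f x ∈ circ (act f c) := by
  rw [← image_circ]; exact mem_image_of_mem f h

theorem act_one (c : Idx m) : act (1 : Rab m ≃ₜ Rab m) c = c := by
  apply circ_injective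
  rw [← image_circ]
  ext x
  simp [Homeomorph.one_apply]

theorem act_mul (f g : Rab m ≃ₜ Rab m) (c : Idx m) : act (f * g) c = act f (act g c) := by
  apply circ_injective
  rw [← image_circ, ← image_circ, ← image_circ, image_image]
  rfl

theorem act_injective (f : Rab m ≃ₜ Rab m) : Function.Injective (act f) := by
  intro a b h
  apply circ_injective
  have h1 := image_circ f a
  rw [h, ← image_circ f b] at h1
  exact (image_injective.2 f.injective) h1

/-- The point of circle `a` in the direction of circle `b`. -/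
noncomputable def gate (a b : Idx m) : Rab m := pt a (dir a b)

theorem gate_mem (a b : Idx m) : gate a b ∈ circ a := pt_mem_circ _ _

theorem gate_not_joined {a b : Idx m} (hab : a ≠ b) {T : Set (Rab m)} (hT : IsPreconnected T)
    (hq : gate a b ∉ T) (hTa : (T ∩ circ a).Nonempty) (hTb : (T ∩ circ b).Nonempty) : False := by
  obtain ⟨x, hxT, hxa⟩ := hTa
  obtain ⟨y, hyT, hyb⟩ := hTb
  rcases preconnected_side hT hq with h | h
  · apply h hyT
    exact mem_circ_iff.1 hyb a hab
  · have h1 := (h hxT).1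
    have h2 : x.1 a = dir a b := h1
    have h3 : x = gate a b := by
      rw [gate, ← h2]; exact eq_pt_of_mem_circ hxa
    exact (h hxT).2 h3

theorem joined_of_ne_gate {a b : Idx m} (hab : a ≠ b) {q : Rab m} (hqa : q ∈ circ a)
    (hq : q ≠ gate a b) : ∃ T : Set (Rab m), IsPreconnected T ∧ q ∉ T ∧
      (T ∩ circ a).Nonempty ∧ (T ∩ circ b).Nonempty := by
  refine ⟨Fib a (dir a b), isPreconnected_fib _ _, ?_, ⟨gate a b, ?_, gate_mem a b⟩,
    ⟨pt b 0, ?_, pt_mem_circ _ _⟩⟩
  · intro h
    apply hq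
    have h2 : q.1 a = dir a b := h
    rw [gate, ← h2]; exact eq_pt_of_mem_circ hqa
  · exact pt_mem_fib _ _
  · exact circ_subset_fib hab.symm (pt_mem_circ _ _)

theorem map_gate (f : Rab m ≃ₜ Rab m) {a b : Idx m} (hab : a ≠ b) :
    f (gate a b) = gate (act f a) (act f b) := by
  by_contra hne
  obtain ⟨T, hT, hqT, ⟨x, hxT, hxa⟩, ⟨y, hyT, hyb⟩⟩ :=
    joined_of_ne_gate ((act_injective f).ne hab) (mem_circ_act (f := f) (gate_mem a b)) hne
  have hT' : IsPreconnected (f ⁻¹' T) := f.isPreconnected_preimage.2 hT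
  refine gate_not_joined hab hT' hqT ?_ ?_
  · rw [← image_circ] at hxa
    obtain ⟨x', hx', rfl⟩ := hxa
    exact ⟨x', hxT, hx'⟩
  · rw [← image_circ] at hyb
    obtain ⟨y', hy', rfl⟩ := hyb
    exact ⟨y', hyT, hy'⟩

theorem dir_eq_iff_gate {a b c : Idx m} : dir a b = dir a c ↔ gate a b = gate a c := by
  constructor
  · intro h; rw [gate, gate, h]
  · intro h; exact pt_injective a h

theorem act_dir (f : Rab m ≃ₜ Rab m) {a b c : Idx m} (hab : a ≠ b) (hac : a ≠ c) :
    dir (act f a) (act f b) = dir (act f a) (act f c) ↔ dir a b = dir a c := by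
  rw [dir_eq_iff_gate, dir_eq_iff_gate, ← map_gate f hab, ← map_gate f hac]
  exact f.injective.eq_iff

/-! ### Centers of finite invariant sets -/

theorem exists_center (H : Finset (Idx m)) (hne : H.Nonempty)
    (hconv : ∀ b ∈ H, ∀ c ∈ H, ∀ a, a ≠ b → a ≠ c → dir a b ≠ dir a c → a ∈ H) :
    ∃ H' : Finset (Idx m), H'.Nonempty ∧
      (∀ b ∈ H', ∀ c ∈ H', ∀ a, a ≠ b → a ≠ c → dir a b = dir a c) ∧
      ∀ f : Rab m ≃ₜ Rab m, (∀ c ∈ H, act f c ∈ H) → ∀ c ∈ H', act f c ∈ H' := by
  classical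
  induction hn : H.card using Nat.strong_induction_on generalizing H with
  | _ n ih =>
    set H1 : Finset (Idx m) := H.filter fun c => ∃ b ∈ H, ∃ b' ∈ H, c ≠ b ∧ c ≠ b' ∧
      dir c b ≠ dir c b' with hH1
    by_cases h1 : H1.Nonempty
    · have hss : H1 ⊂ H := by
        refine Finset.filter_ssubset.2 ?_
        obtain ⟨c, hc, hmax⟩ := H.exists_max_image List.length hne
        refine ⟨c, hc, ?_⟩
        rintro ⟨b, hb, b', hb', -, -, hd⟩
        apply hd
        rw [dir_eq_zero_of_length_le (hmax b hb), dir_eq_zero_of_length_le (hmax b' hb')]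
      have hcard : H1.card < n := hn ▸ Finset.card_lt_card hss
      obtain ⟨H', hH'ne, hH', hinv⟩ := ih H1.card hcard H1 h1 (by
        intro b hb c hc a hab hac hd
        have hb' := (Finset.mem_filter.1 hb).1
        have hc' := (Finset.mem_filter.1 hc).1
        exact Finset.mem_filter.2 ⟨hconv b hb' c hc' a hab hac hd, b, hb', c, hc', hab, hac, hd⟩) rfl
      refine ⟨H', hH'ne, hH', fun f hf => hinv f ?_⟩
      intro c hc
      obtain ⟨hcH, b, hb, b', hb', hcb, hcb', hd⟩ := Finset.mem_filter.1 hc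
      refine Finset.mem_filter.2 ⟨hf c hcH, act f b, hf b hb, act f b', hf b' hb',
        (act_injective f).ne hcb, (act_injective f).ne hcb', ?_⟩
      rwa [Ne, act_dir f hcb hcb']
    · refine ⟨H, hne, ?_, fun f hf => hf⟩
      intro b hb c hc a hab hac
      by_contra hd
      exact h1 ⟨a, Finset.mem_filter.2 ⟨hconv b hb c hc a hab hac hd, b, hb, c, hc, hab, hac, hd⟩⟩

/-- The convex hull of a finite set of circles. -/
theorem exists_hull (O : Finset (Idx m)) : ∃ H : Finset (Idx m), O ⊆ H ∧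
    (∀ b ∈ H, ∀ c ∈ H, ∀ a, a ≠ b → a ≠ c → dir a b ≠ dir a c → a ∈ H) ∧
    ∀ f : Rab m ≃ₜ Rab m, (∀ c ∈ O, act f c ∈ O) → ∀ c ∈ H, act f c ∈ H := by
  classical
  set S : Set (Idx m) := {a | a ∈ O ∨ ∃ b ∈ O, ∃ c ∈ O, a ≠ b ∧ a ≠ c ∧ dir a b ≠ dir a c} with hS
  have hfin : S.Finite := by
    have h1 : (⋃ b ∈ O, {a : Idx m | dir a b ≠ 0}).Finite :=
      Set.Finite.biUnion O.finite_toSet fun b _ => finite_ancestors b
    refine (O.finite_toSet.union h1).subset ?_
    rintro a (ha | ⟨b, hb, c, hc, -, -, hd⟩)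
    · exact Or.inl ha
    · right
      by_cases hab : dir a b = 0
      · refine mem_iUnion₂.2 ⟨c, hc, ?_⟩
        intro hac
        exact hd (hab.trans hac.symm)
      · exact mem_iUnion₂.2 ⟨b, hb, hab⟩
  refine ⟨hfin.toFinset, ?_, ?_, ?_⟩
  · intro a ha
    rw [Set.Finite.mem_toFinset]
    exact Or.inl ha
  · have key : ∀ u ∈ S, ∀ a, a ≠ u → a ∉ O → ∃ b ∈ O, dir a b = dir a u := by
      rintro u (hu | ⟨b, hb, c, hc, hub, huc, hd⟩) a hau haO
      · exact ⟨u, hu, rfl⟩
      · rcases dir_tree hau b with h | h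
        · exact ⟨b, hb, h⟩
        · rcases dir_tree hau c with h' | h'
          · exact ⟨c, hc, h'⟩
          · exact absurd (h.trans h'.symm) hd
    intro u hu v hv a hau hav hd
    rw [Set.Finite.mem_toFinset] at hu hv ⊢
    by_cases haO : a ∈ O
    · exact Or.inl haO
    · obtain ⟨b, hb, hb'⟩ := key u hu a hau haO
      obtain ⟨c, hc, hc'⟩ := key v hv a hav haO
      refine Or.inr ⟨b, hb, c, hc, ?_, ?_, ?_⟩
      · rintro rfl; exact haO hb
      · rintro rfl; exact haO hc
      · rw [hb', hc']; exact hd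
  · intro f hf c hc
    rw [Set.Finite.mem_toFinset] at hc ⊢
    rcases hc with hc | ⟨b, hb, b', hb', hcb, hcb', hd⟩
    · exact Or.inl (hf c hc)
    · refine Or.inr ⟨act f b, hf b hb, act f b', hf b' hb', (act_injective f).ne hcb,
        (act_injective f).ne hcb', ?_⟩
      rwa [Ne, act_dir f hcb hcb']

/-- If no circle lies between `b` and `c`, the two gates agree. -/
theorem gate_comm {b c : Idx m} (hbc : b ≠ c)
    (h : ∀ a, a ≠ b → a ≠ c → dir a b = dir a c) : gate b c = gate c b := by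
  refine Rab.ext fun d => ?_
  rw [gate, gate]
  by_cases hdb : d = b
  · subst hdb; rw [pt_self, pt_ne hbc]
  · rw [pt_ne hdb]
    by_cases hdc : d = c
    · subst hdc; rw [pt_self]
    · rw [pt_ne hdc, h d hdb hdc]

/-- Fixed circle or fixed cut point. -/
theorem exists_fixed (O : Finset (Idx m)) (hO : O.Nonempty) :
    (∃ c, ∀ f : Rab m ≃ₜ Rab m, (∀ c ∈ O, act f c ∈ O) → act f c = c) ∨
    (∃ b c, b ≠ c ∧ ∀ f : Rab m ≃ₜ Rab m, (∀ c ∈ O, act f c ∈ O) → f (gate b c) = gate b c) := by
  obtain ⟨H, hOH, hconv, hinv⟩ := exists_hull O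
  obtain ⟨H', hne, hH', hinv'⟩ := exists_center H (hO.mono hOH) hconv
  obtain ⟨b, hb⟩ := hne
  by_cases hsing : ∀ c ∈ H', c = b
  · left
    refine ⟨b, fun f hf => hsing _ (hinv' f (hinv f hf) b hb)⟩
  · right
    push Not at hsing
    obtain ⟨c, hc, hcb⟩ := hsing
    have g1 : ∀ u ∈ H', ∀ v ∈ H', ∀ w ∈ H', u ≠ v → u ≠ w → gate u v = gate u w := by
      intro u _ v hv w hw huv huw
      rw [← dir_eq_iff_gate]
      exact hH' v hv w hw u huv huw
    have g2 : ∀ u ∈ H', ∀ v ∈ H', u ≠ v → gate u v = gate v u := by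
      intro u hu v hv huv
      exact gate_comm huv (hH' u hu v hv)
    have g3 : ∀ u ∈ H', ∀ v ∈ H', ∀ w ∈ H', ∀ z ∈ H', u ≠ v → w ≠ z → gate u v = gate w z := by
      intro u hu v hv w hw z hz huv hwz
      by_cases huw : u = w
      · subst huw; exact g1 u hu v hv z hz huv hwz
      · rw [g1 u hu v hv w hw huv huw, g2 u hu w hw huw]
        exact g1 w hw u hu z hz (Ne.symm huw) hwz
    refine ⟨b, c, Ne.symm hcb, fun f hf => ?_⟩
    rw [map_gate f (Ne.symm hcb)]
    exact g3 _ (hinv' f (hinv f hf) b hb) _ (hinv' f (hinv f hf) c hc) _ hb _ hc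
      ((act_injective f).ne (Ne.symm hcb)) (Ne.symm hcb)

/-! ### Restriction to an invariant circle -/

/-- The map induced on the circle `c`. -/
noncomputable def res (f : Rab m ≃ₜ Rab m) (c : Idx m) (t : Circ) : Circ := (f (pt c t)).1 c

theorem continuous_res (f : Rab m ≃ₜ Rab m) (c : Idx m) : Continuous (res f c) :=
  (continuous_coord c).comp (f.continuous.comp (continuous_pt c))

theorem apply_pt {f : Rab m ≃ₜ Rab m} {c : Idx m} (h : act f c = c) (t : Circ) :
    f (pt c t) = pt c (res f c t) := by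
  have h1 : f (pt c t) ∈ circ c := by
    have := mem_circ_act (f := f) (pt_mem_circ c t)
    rwa [h] at this
  exact eq_pt_of_mem_circ h1

theorem res_mul {f g : Rab m ≃ₜ Rab m} {c : Idx m} (hg : act g c = c) (t : Circ) :
    res (f * g) c t = res f c (res g c t) := by
  change (f (g (pt c t))).1 c = _
  rw [apply_pt hg]; rfl

theorem mem_circ_pt_iff {c : Idx m} {s : Pos} {a : Idx m} :
    pt c s.1 ∈ circ a ↔ ∃ i, a = thr c s i := by
  constructor
  · intro h
    by_cases hac : a = c
    · exact ⟨none, hac⟩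
    · have h1 := mem_circ_iff.1 h c (Ne.symm hac)
      rw [pt_self] at h1
      obtain ⟨l, hl, hl2⟩ := exists_child (a := c) (c := a) (by rw [← h1]; exact s.2.1)
      have hls : l.1 = s := Subtype.ext (by rw [hl, ← h1])
      rcases hl2 with hl2 | hl2
      · refine ⟨some l.2, ?_⟩
        rw [hl2, thr, ← hls]
      · exfalso
        have hne : l :: c ≠ a := by rintro rfl; simp at hl2
        have h2 := mem_circ_iff.1 h (l :: c) hne
        rw [pt_ne (by simp)] at h2
        rw [dir_cons_left] at h2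
        exact hl2 h2.symm
  · rintro ⟨i, rfl⟩
    rw [← pt_thr c s i]; exact pt_mem_circ _ _

end Pool.Agent.Rabbit
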