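import Mathlib

/-!
Continuous self-maps of `ℝ / ℤ` of order three.
-/

open Set Topology

namespace Pool.Agent.Rabbit

namespace CircleMaps

/-- Existence of a continuous lift. -/
theorem exists_lift {h : AddCircle (1 : ℝ) → AddCircle (1 : ℝ)} (hh : Continuous h) :
    ∃ F : ℝ → ℝ, Continuous F ∧ ∀ x : ℝ, (F x : AddCircle (1 : ℝ)) = h (x : AddCircle (1 : ℝ)) := by
  obtain ⟨e0, he0⟩ := QuotientAddGroup.mk_surjective (h ((0 : ℝ) : AddCircle (1 : ℝ)))
  let f : C(ℝ, AddCircle (1 : ℝ)) :=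
    ⟨fun x => h (x : AddCircle (1 : ℝ)), hh.comp (AddCircle.continuous_mk' 1)⟩
  obtain ⟨F, ⟨-, hF⟩, -⟩ :=
    (AddCircle.isCoveringMap_coe (1 : ℝ)).existsUnique_continuousMap_lifts f 0 e0 he0
  exact ⟨F, F.continuous, fun x => congrFun hF x⟩

/-- Two lifts of the same map differ by an integer. -/
theorem lift_unique {F G : ℝ → ℝ} (hF : Continuous F) (hG : Continuous G)
    (h : ∀ x : ℝ, (F x : AddCircle (1 : ℝ)) = (G x : AddCircle (1 : ℝ))) :
    ∃ k : ℤ, ∀ x, F x = G x + k := by
  have h0 : ((F 0 - G 0 : ℝ) : AddCircle (1 : ℝ)) = 0 := by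
    rw [AddCircle.coe_sub, h 0, sub_self]
  obtain ⟨k, hk⟩ := (AddCircle.coe_eq_zero_iff (1 : ℝ)).1 h0
  have hk' : (k : ℝ) = F 0 - G 0 := by simpa using hk
  have hkz : ((k : ℝ) : AddCircle (1 : ℝ)) = 0 :=
    (AddCircle.coe_eq_zero_iff (1 : ℝ)).2 ⟨k, by simp⟩
  refine ⟨k, fun x => ?_⟩
  have := (AddCircle.isCoveringMap_coe (1 : ℝ)).eq_of_comp_eq (g₁ := F)
    (g₂ := fun x => G x + k) hF (hG.add continuous_const) (by
      funext y
      simp only [Function.comp_apply, AddCircle.coe_add]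
      rw [h y, hkz, add_zero]) 0 (by rw [hk']; ring)
  exact congrFun this x

/-- A continuous map of order three has a continuous degree one lift. -/
theorem exists_deg1_lift {h : AddCircle (1 : ℝ) → AddCircle (1 : ℝ)} (hh : Continuous h)
    (h3 : ∀ t, h (h (h t)) = t) :
    ∃ F : CircleDeg1Lift, Continuous F ∧
      ∀ x : ℝ, (F x : AddCircle (1 : ℝ)) = h (x : AddCircle (1 : ℝ)) := by
  obtain ⟨F, hF, hFh⟩ := exists_lift hh
  -- degree
  obtain ⟨d, hd⟩ := lift_unique (F := fun x => F (x + 1)) (G := F)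
    (hF.comp (continuous_id.add continuous_const)) hF (by
      intro x
      rw [hFh, hFh, AddCircle.coe_add_period])
  have hdint : ∀ (n : ℕ) (x : ℝ), F (x + n) = F x + n * d := by
    intro n
    induction n with
    | zero => intro x; simp
    | succ n ih =>
      intro x
      have := hd (x + n)
      push_cast
      rw [← add_assoc, this, ih x]; ring
  have hdint' : ∀ (n : ℤ) (x : ℝ), F (x + n) = F x + n * d := by
    intro n x
    obtain ⟨k, rfl | rfl⟩ := n.eq_nat_or_neg
    · exact_mod_cast hdint k x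
    · have := hdint k (x - k)
      rw [sub_add_cancel] at this
      push_cast
      rw [← sub_eq_add_neg, this]; ring
  obtain ⟨k, hk⟩ := lift_unique (F := fun x => F (F (F x))) (G := fun x => x)
    (hF.comp (hF.comp hF)) continuous_id (by
      intro x
      rw [hFh, hFh, hFh, h3])
  have hd3 : (d : ℝ) * (d * d) = 1 := by
    have h1 := hk (0 + 1)
    have h0 := hk 0
    have e1 : F (0 + 1) = F 0 + (d : ℤ) := hd 0
    have e2 : F (F 0 + d) = F (F 0) + ((d * d : ℤ) : ℝ) := by
      rw [hdint' d (F 0)]; push_cast; ring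
    have e3 : F (F (F 0) + ((d * d : ℤ) : ℝ)) = F (F (F 0)) + ((d * d : ℤ) : ℝ) * d :=
      hdint' (d * d) (F (F 0))
    rw [e1, e2, e3, h0] at h1
    push_cast at h1
    linarith
  have hd1 : d = 1 := by
    have h1 : d * (d * d) = 1 := by exact_mod_cast hd3
    have h2 : IsUnit d := IsUnit.of_mul_eq_one _ h1
    rcases Int.isUnit_iff.1 h2 with h | h
    · exact h
    · rw [h] at h1; norm_num at h1
  have hinj : Function.Injective F := by
    intro x y hxy
    have hx := hk x
    have hy := hk y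
    rw [hxy] at hx
    linarith
  have hadd : ∀ x, F (x + 1) = F x + 1 := by
    intro x
    have := hd x
    rw [this, hd1]; simp
  have hmono : Monotone F := by
    rcases hF.strictMono_of_inj hinj with hm | hm
    · exact hm.monotone
    · exfalso
      have h1 := hm (show (0 : ℝ) < 0 + 1 by norm_num)
      rw [hadd 0] at h1
      linarith
  exact ⟨⟨⟨F, hmono⟩, hadd⟩, hF, hFh⟩

/-- A continuous map of order three with a fixed point is the identity. -/
theorem eq_id_of_fixed {h : AddCircle (1 : ℝ) → AddCircle (1 : ℝ)} (hh : Continuous h)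
    (h3 : ∀ t, h (h (h t)) = t) {t0 : AddCircle (1 : ℝ)} (ht0 : h t0 = t0) : ∀ t, h t = t := by
  obtain ⟨F, hF, hFh⟩ := exists_deg1_lift hh h3
  obtain ⟨x0, rfl⟩ := QuotientAddGroup.mk_surjective t0
  obtain ⟨m, hm⟩ : ∃ m : ℤ, F x0 = x0 + m := by
    have h0 : ((F x0 - x0 : ℝ) : AddCircle (1 : ℝ)) = 0 := by
      rw [AddCircle.coe_sub, hFh x0, sub_eq_zero]; exact ht0
    obtain ⟨k, hk⟩ := (AddCircle.coe_eq_zero_iff (1 : ℝ)).1 h0
    exact ⟨k, by have : (k : ℝ) = F x0 - x0 := by simpa using hk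
                 linarith⟩
  obtain ⟨k, hk⟩ := lift_unique (F := fun x => F (F (F x))) (G := fun x => x)
    (hF.comp (hF.comp hF)) continuous_id (by
      intro x
      rw [hFh, hFh, hFh, h3])
  have hk3 : (k : ℝ) = ((3 : ℕ) : ℝ) * m := by
    have h1 := hk x0
    rw [hm, F.map_add_int, hm, F.map_add_int, F.map_add_int, hm] at h1
    push_cast
    linarith
  intro t
  obtain ⟨x, rfl⟩ := QuotientAddGroup.mk_surjective t
  have hx : F^[3] x = x + ((3 : ℕ) : ℝ) * m := by
    rw [← hk3]; exact hk x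
  have hx1 := (F.iterate_pos_eq_iff (by norm_num : 0 < 3)).1 hx
  change h (x : AddCircle (1 : ℝ)) = (x : AddCircle (1 : ℝ))
  rw [← hFh, hx1, AddCircle.coe_add]
  have hkz : ((m : ℝ) : AddCircle (1 : ℝ)) = 0 :=
    (AddCircle.coe_eq_zero_iff (1 : ℝ)).2 ⟨m, by simp⟩
  rw [hkz, add_zero]

theorem mod_three_aux (a b : ℤ) : ∃ i j : ℕ, i < 3 ∧ j < 3 ∧ (i ≠ 0 ∨ j ≠ 0) ∧
    ∃ n : ℤ, i * a + j * b = 3 * n := by
  have ha : a % 3 = 0 ∨ a % 3 = 1 ∨ a % 3 = 2 := by omega
  have hb : b % 3 = 0 ∨ b % 3 = 1 ∨ b % 3 = 2 := by omega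
  rcases ha with ha | ha | ha
  · exact ⟨1, 0, by norm_num, by norm_num, Or.inl one_ne_zero, a / 3, by push_cast; omega⟩
  · rcases hb with hb | hb | hb
    · exact ⟨0, 1, by norm_num, by norm_num, Or.inr one_ne_zero, b / 3, by push_cast; omega⟩
    · exact ⟨1, 2, by norm_num, by norm_num, Or.inl one_ne_zero, (a + 2 * b) / 3,
        by push_cast; omega⟩
    · exact ⟨1, 1, by norm_num, by norm_num, Or.inl one_ne_zero, (a + b) / 3,
        by push_cast; omega⟩
  · rcases hb with hb | hb | hb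
    · exact ⟨0, 1, by norm_num, by norm_num, Or.inr one_ne_zero, b / 3, by push_cast; omega⟩
    · exact ⟨1, 1, by norm_num, by norm_num, Or.inl one_ne_zero, (a + b) / 3,
        by push_cast; omega⟩
    · exact ⟨1, 2, by norm_num, by norm_num, Or.inl one_ne_zero, (a + 2 * b) / 3,
        by push_cast; omega⟩

/-- Commuting continuous maps `h`, `k` of order three: some `h ^ i ∘ k ^ j` has a fixed point. -/
theorem exists_fixed_of_commute {h k : AddCircle (1 : ℝ) → AddCircle (1 : ℝ)}
    (hh : Continuous h) (hk : Continuous k) (h3 : ∀ t, h (h (h t)) = t)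
    (k3 : ∀ t, k (k (k t)) = t) (hcomm : ∀ t, h (k t) = k (h t)) :
    ∃ i j : ℕ, i < 3 ∧ j < 3 ∧ (i ≠ 0 ∨ j ≠ 0) ∧ ∃ t, h^[i] (k^[j] t) = t := by
  obtain ⟨F, hF, hFh⟩ := exists_deg1_lift hh h3
  obtain ⟨G, hG, hGk⟩ := exists_deg1_lift hk k3
  obtain ⟨a, ha⟩ := lift_unique (F := fun x => F (F (F x))) (G := fun x => x)
    (hF.comp (hF.comp hF)) continuous_id (by
      intro x
      rw [hFh, hFh, hFh, h3])
  obtain ⟨b, hb⟩ := lift_unique (F := fun x => G (G (G x))) (G := fun x => x)
    (hG.comp (hG.comp hG)) continuous_id (by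
      intro x
      rw [hGk, hGk, hGk, k3])
  obtain ⟨c, hc⟩ := lift_unique (F := fun x => F (G x)) (G := fun x => G (F x))
    (hF.comp hG) (hG.comp hF) (by
      intro x
      rw [hFh, hGk, hGk, hFh, hcomm])
  have hc0 : c = 0 := by
    have e1 := ha (G 0)
    have e2 : F (F (F (G 0))) = G (F (F (F 0))) + 3 * c := by
      rw [hc 0, F.map_add_int, hc (F 0), F.map_add_int, F.map_add_int, hc (F (F 0))]; ring
    rw [e2, ha 0, G.map_add_int] at e1
    have : (c : ℝ) = 0 := by linarith
    exact_mod_cast this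
  have hFG : Commute F G := by
    apply CircleDeg1Lift.ext
    intro x
    rw [CircleDeg1Lift.mul_apply, CircleDeg1Lift.mul_apply, hc x, hc0]; simp
  have htF : F.translationNumber = a / 3 := by
    have h1 : (F ^ 3).translationNumber = a := by
      apply CircleDeg1Lift.translationNumber_of_eq_add_int (x := 0)
      rw [CircleDeg1Lift.coe_pow]
      exact ha 0
    rw [CircleDeg1Lift.translationNumber_pow] at h1
    push_cast at h1
    linarith
  have htG : G.translationNumber = b / 3 := by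
    have h1 : (G ^ 3).translationNumber = b := by
      apply CircleDeg1Lift.translationNumber_of_eq_add_int (x := 0)
      rw [CircleDeg1Lift.coe_pow]
      exact hb 0
    rw [CircleDeg1Lift.translationNumber_pow] at h1
    push_cast at h1
    linarith
  obtain ⟨i, j, hi, hj, hij, n, hn⟩ := mod_three_aux a b
  refine ⟨i, j, hi, hj, hij, ?_⟩
  have htau : (F ^ i * G ^ j).translationNumber = n := by
    rw [CircleDeg1Lift.translationNumber_mul_of_commute (hFG.pow_pow i j),
      CircleDeg1Lift.translationNumber_pow, CircleDeg1Lift.translationNumber_pow, htF, htG]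
    have : (i : ℝ) * a + j * b = 3 * n := by exact_mod_cast hn
    linarith
  have hcont : Continuous (F ^ i * G ^ j : CircleDeg1Lift) := by
    rw [CircleDeg1Lift.coe_mul]
    exact (CircleDeg1Lift.continuous_pow F hF i).comp (CircleDeg1Lift.continuous_pow G hG j)
  obtain ⟨x, hx⟩ := ((F ^ i * G ^ j).translationNumber_eq_int_iff hcont).1 htau
  refine ⟨(x : AddCircle (1 : ℝ)), ?_⟩
  have hcoeF : ∀ (i : ℕ) (x : ℝ), ((F^[i] x : ℝ) : AddCircle (1 : ℝ)) = h^[i] x := by
    intro i
    induction i with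
    | zero => intro x; rfl
    | succ i ih => intro x; rw [Function.iterate_succ_apply', Function.iterate_succ_apply', hFh, ih]
  have hcoeG : ∀ (i : ℕ) (x : ℝ), ((G^[i] x : ℝ) : AddCircle (1 : ℝ)) = k^[i] x := by
    intro i
    induction i with
    | zero => intro x; rfl
    | succ i ih => intro x; rw [Function.iterate_succ_apply', Function.iterate_succ_apply', hGk, ih]
  rw [CircleDeg1Lift.mul_apply, CircleDeg1Lift.coe_pow, CircleDeg1Lift.coe_pow] at hx
  rw [← hcoeG, ← hcoeF, hx, AddCircle.coe_add]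
  have hkz : ((n : ℝ) : AddCircle (1 : ℝ)) = 0 :=
    (AddCircle.coe_eq_zero_iff (1 : ℝ)).2 ⟨n, by simp⟩
  rw [hkz, add_zero]

end CircleMaps

end Pool.Agent.Rabbit
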