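import Pool.Agent.Rabbit.Peano

/-!
The circles of the model are exactly the coordinate circles; the model is a regular rabbit.
-/

open Set Topology

namespace Pool.Agent.Rabbit

variable {m : ℕ}

theorem isClosedEmbedding_pt (c : Idx m) : IsClosedEmbedding (pt c) :=
  (continuous_pt c).isClosedEmbedding (pt_injective c)

/-- Coordinate circles are circles. -/
theorem isCircle_circ (c : Idx m) : IsCircle (circ c) :=
  ⟨((isClosedEmbedding_pt c).isEmbedding.toHomeomorph.symm).trans
    (AddCircle.homeomorphCircle one_ne_zero)⟩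

section general

variable {X : Type*} [TopologicalSpace X]

theorem IsCircle.exists_homeo {K : Set X} (h : IsCircle K) : Nonempty (K ≃ₜ Circ) := by
  obtain ⟨e⟩ := h
  exact ⟨e.trans (AddCircle.homeomorphCircle one_ne_zero).symm⟩

theorem IsCircle.isPreconnected_diff {K : Set X} (h : IsCircle K) (q : X) :
    IsPreconnected (K \ {q}) := by
  obtain ⟨e⟩ := h.exists_homeo
  have hcont : Continuous (fun t : Circ => ((e.symm t : K) : X)) :=
    continuous_subtype_val.comp e.symm.continuous
  by_cases hq : q ∈ K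
  · have : K \ {q} = (fun t : Circ => ((e.symm t : K) : X)) '' {e ⟨q, hq⟩}ᶜ := by
      ext x
      constructor
      · rintro ⟨hxK, hxq⟩
        refine ⟨e ⟨x, hxK⟩, ?_, by simp⟩
        intro h
        have := e.injective h
        exact hxq (congrArg Subtype.val this)
      · rintro ⟨t, ht, rfl⟩
        refine ⟨(e.symm t).2, ?_⟩
        intro h
        apply ht
        have h' : e.symm t = ⟨q, hq⟩ := Subtype.ext h
        rw [mem_singleton_iff, ← h', e.apply_symm_apply]
    rw [this]
    exact (isPreconnected_compl_circ _).image _ hcont.continuousOn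
  · have : K \ {q} = (fun t : Circ => ((e.symm t : K) : X)) '' univ := by
      ext x
      constructor
      · rintro ⟨hxK, -⟩
        exact ⟨e ⟨x, hxK⟩, mem_univ _, by simp⟩
      · rintro ⟨t, -, rfl⟩
        refine ⟨(e.symm t).2, ?_⟩
        intro h
        exact hq (h ▸ (e.symm t).2)
    rw [this]
    exact isPreconnected_univ.image _ hcont.continuousOn

theorem exists_ne_circ : ∃ s t : Circ, s ≠ t := by
  obtain ⟨t, ht⟩ := compl_circ_nonempty 0
  exact ⟨t, 0, ht⟩

theorem IsCircle.exists_ne {K : Set X} (h : IsCircle K) : ∃ x ∈ K, ∃ y ∈ K, x ≠ y := by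
  obtain ⟨e⟩ := h.exists_homeo
  obtain ⟨s, t, hst⟩ := exists_ne_circ
  refine ⟨e.symm s, (e.symm s).2, e.symm t, (e.symm t).2, ?_⟩
  intro h
  exact hst (e.symm.injective (Subtype.ext h))

end general

/-- A proper subset of the circle all of whose point-complements are preconnected is a point. -/
theorem circ_subset_eq_univ {T : Set Circ} (hT : ∀ w, IsPreconnected (T \ {w}))
    {t t' : Circ} (ht : t ∈ T) (ht' : t' ∈ T) (hne : t ≠ t') : T = univ := by
  by_contra hcon
  obtain ⟨u, hu⟩ := (ne_univ_iff_exists_notMem T).1 hcon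
  obtain ⟨a, rfl⟩ := QuotientAddGroup.mk_surjective u
  set φ := AddCircle.openPartialHomeomorphCoe (1 : ℝ) a with hφ
  have htgt : φ.target = {(a : Circ)}ᶜ := rfl
  have hTt : T ⊆ φ.target := by
    intro x hx
    rw [htgt]
    rintro rfl
    exact hu hx
  wlog hlt : φ.symm t < φ.symm t' generalizing t t'
  · refine this ht' ht hne.symm ?_
    rcases lt_trichotomy (φ.symm t) (φ.symm t') with h | h | h
    · exact absurd h hlt
    · exfalso
      apply hne
      rw [← φ.right_inv (hTt ht), h, φ.right_inv (hTt ht')]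
    · exact h
  obtain ⟨w, hw1, hw2⟩ := exists_between hlt
  have hts := φ.map_target (hTt ht)
  have hts' := φ.map_target (hTt ht')
  have hw : w ∈ φ.source := ⟨hts.1.trans hw1, hw2.trans hts'.2⟩
  have hpre : IsPreconnected (φ.symm '' (T \ {φ w})) :=
    (hT (φ w)).image _ (φ.continuousOn_symm.mono (sdiff_subset.trans hTt))
  have hmem : w ∈ φ.symm '' (T \ {φ w}) := by
    refine hpre.ordConnected.out ⟨t, ⟨ht, ?_⟩, rfl⟩ ⟨t', ⟨ht', ?_⟩, rfl⟩ ⟨hw1.le, hw2.le⟩
    · rintro rfl
      rw [φ.left_inv hw] at hw1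
      exact lt_irrefl _ hw1
    · rintro rfl
      rw [φ.left_inv hw] at hw2
      exact lt_irrefl _ hw2
  obtain ⟨z, ⟨hzT, hzw⟩, hz⟩ := hmem
  apply hzw
  rw [mem_singleton_iff, ← hz, φ.right_inv (hTt hzT)]

/-- Every circle of the model is a coordinate circle. -/
theorem exists_circ_of_isCircle {K : Set (Rab m)} (hK : IsCircle K) : ∃ c, K = circ c := by
  obtain ⟨x, hx, y, hy, hxy⟩ := hK.exists_ne
  obtain ⟨c, hc⟩ : ∃ c, x.1 c ≠ y.1 c := by
    by_contra hcon
    push Not at hcon
    exact hxy (Rab.ext hcon)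
  have hsub : K ⊆ circ c := by
    intro z hz
    by_contra hzc
    rw [mem_circ_iff] at hzc
    push Not at hzc
    obtain ⟨d, hdc, hd⟩ := hzc
    have hzs : z.1 c = dir c d := by
      rcases coord_or (x := z) hdc with h | h
      · exact absurd h hd
      · exact h
    have hzq : z ≠ pt c (dir c d) := by
      intro h
      apply hd
      rw [h, pt_ne hdc]
    -- one of x, y has different coordinate
    obtain ⟨w, hw, hwc⟩ : ∃ w ∈ K, w.1 c ≠ dir c d := by
      by_cases h : x.1 c = dir c d
      · exact ⟨y, hy, fun h' => hc (h.trans h'.symm)⟩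
      · exact ⟨x, hx, h⟩
    have hwq : w ≠ pt c (dir c d) := by
      intro h
      apply hwc
      rw [h, pt_self]
    rcases preconnected_side (a := c) (s := dir c d)
      (hK.isPreconnected_diff (pt c (dir c d))) (fun h => h.2 rfl) with h | h
    · exact h ⟨hz, hzq⟩ hzs
    · exact hwc (h ⟨hw, hwq⟩).1
  refine ⟨c, hsub.antisymm ?_⟩
  set T : Set Circ := {r | pt c r ∈ K} with hTdef
  have hT : ∀ w, IsPreconnected (T \ {w}) := by
    intro w
    have : T \ {w} = (fun x : Rab m => x.1 c) '' (K \ {pt c w}) := by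
      ext r
      constructor
      · rintro ⟨hr, hrw⟩
        exact ⟨pt c r, ⟨hr, fun h => hrw (pt_injective c h)⟩, by simp⟩
      · rintro ⟨z, ⟨hz, hzw⟩, rfl⟩
        have hz' := eq_pt_of_mem_circ (hsub hz)
        refine ⟨?_, ?_⟩
        · change pt c (z.1 c) ∈ K
          rw [← hz']; exact hz
        · intro h
          apply hzw
          have h' : z.1 c = w := h
          rw [hz', h']
          exact mem_singleton _
    rw [this]
    exact (hK.isPreconnected_diff _).image _ (continuous_coord c).continuousOn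
  have hxT : x.1 c ∈ T := by
    change pt c (x.1 c) ∈ K
    rw [← eq_pt_of_mem_circ (hsub hx)]; exact hx
  have hyT : y.1 c ∈ T := by
    change pt c (y.1 c) ∈ K
    rw [← eq_pt_of_mem_circ (hsub hy)]; exact hy
  have huniv := circ_subset_eq_univ hT hxT hyT hc
  rintro _ ⟨r, rfl⟩
  have : r ∈ T := by rw [huniv]; exact mem_univ _
  exact this

theorem circ_inter_subsingleton {a b : Idx m} (h : a ≠ b) : (circ a ∩ circ b).Subsingleton := by
  have key : ∀ x ∈ circ a ∩ circ b, x = pt a (dir a b) := by
    rintro x ⟨hxa, hxb⟩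
    rw [eq_pt_of_mem_circ hxa, mem_circ_iff.1 hxb a h]
  intro x hx y hy
  rw [key x hx, key y hy]

theorem circ_injective : Function.Injective (circ : Idx m → Set (Rab m)) := by
  intro a b h
  by_contra hne
  have h1 := circ_inter_subsingleton hne
  rw [← h, inter_self] at h1
  obtain ⟨x, hx, y, hy, hxy⟩ := (isCircle_circ a).exists_ne
  exact hxy (h1 hx hy)

theorem dense_pos : Dense {t : Circ | t ≠ 0 ∧ ∃ q : ℚ, ((q : ℝ) : Circ) = t} := by
  rw [dense_iff_inter_open]
  rintro U hU ⟨u, hu⟩
  obtain ⟨r, rfl⟩ := QuotientAddGroup.mk_surjective u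
  have hV : IsOpen ((fun x : ℝ => (x : Circ)) ⁻¹' U) := hU.preimage (AddCircle.continuous_mk' 1)
  obtain ⟨ε, hε, hball⟩ := Metric.isOpen_iff.1 hV r hu
  have hlt : r < min (r + ε) (⌊r⌋ + 1) := by
    refine lt_min (by linarith) (Int.lt_floor_add_one r)
  obtain ⟨q, hq1, hq2⟩ := exists_rat_btwn hlt
  have hq3 : (q : ℝ) < r + ε := lt_of_lt_of_le hq2 (min_le_left _ _)
  have hq4 : (q : ℝ) < ⌊r⌋ + 1 := lt_of_lt_of_le hq2 (min_le_right _ _)
  refine ⟨((q : ℝ) : Circ), ?_, ?_, q, rfl⟩
  · apply hball
    rw [Metric.mem_ball, Real.dist_eq, abs_lt]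
    constructor <;> linarith
  · intro h0
    obtain ⟨n, hn⟩ := (AddCircle.coe_eq_zero_iff (1 : ℝ)).1 h0
    have hn' : (n : ℝ) = q := by simpa using hn
    have h1 : (⌊r⌋ : ℝ) < n := by
      rw [hn']; exact lt_of_le_of_lt (Int.floor_le r) hq1
    have h2 : (n : ℝ) < ⌊r⌋ + 1 := by rw [hn']; exact hq4
    have h3 : ⌊r⌋ < n := by exact_mod_cast h1
    have h4 : n < ⌊r⌋ + 1 := by exact_mod_cast h2
    omega

theorem dense_circ : Dense (⋃ c : Idx m, circ c) := by
  intro x
  refine mem_closure_of_agree fun F => ?_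
  obtain ⟨c, t, h⟩ := exists_pt_agree x F
  exact ⟨pt c t, mem_iUnion.2 ⟨c, pt_mem_circ c t⟩, h⟩

theorem dense_cut : Dense {x : Rab m | ∃ (c : Idx m) (s : Pos), x = pt c s.1} := by
  have h : (⋃ c : Idx m, circ c) ⊆ closure {x : Rab m | ∃ (c : Idx m) (s : Pos), x = pt c s.1} := by
    intro x hx
    obtain ⟨c, t, rfl⟩ := mem_iUnion.1 hx
    have h1 : t ∈ closure {t : Circ | t ≠ 0 ∧ ∃ q : ℚ, ((q : ℝ) : Circ) = t} := dense_pos t
    have h2 := image_closure_subset_closure_image (continuous_pt c) (mem_image_of_mem (pt c) h1)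
    refine closure_mono ?_ h2
    rintro _ ⟨t, ht, rfl⟩
    exact ⟨c, ⟨t, ht⟩, rfl⟩
  exact (dense_circ.mono h).of_closure

theorem gate_pos {c d : Idx m} (h : c ≠ d) :
    ∃ (c' : Idx m) (s : Pos), pt c (dir c d) = pt c' s.1 := by
  by_cases h0 : dir c d = 0
  · cases c with
    | nil => exact absurd h0 (dir_nil_left h.symm)
    | cons l c' =>
      rw [h0]
      exact ⟨c', l.1, pt_cons_zero l c'⟩
  · obtain ⟨l, hl, -⟩ := exists_child h0
    exact ⟨c, l.1, by rw [hl]⟩

theorem isCutPoint_pos (hm : 0 < m) (c : Idx m) (s : Pos) : IsCutPoint (pt c s.1) := by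
  rw [IsCutPoint, order_pt_pos]
  have : (1 : ℕ∞) ≤ m := by exact_mod_cast hm
  calc (2 : ℕ∞) = 1 + 1 := by norm_num
    _ ≤ m + 1 := by gcongr

theorem separates_of_coord (hm : 0 < m) {a b : Idx m} (hab : a ≠ b) {x y : Rab m}
    (hx : x.1 a ≠ dir a b) (hy : y.1 a = dir a b) (hyq : y ≠ pt a (dir a b)) :
    Separates (pt a (dir a b)) x y := by
  have hxq : x ≠ pt a (dir a b) := by
    rintro rfl
    exact hx (by simp)
  refine ⟨?_, hxq, hyq, ?_⟩
  · obtain ⟨c', s, h⟩ := gate_pos hab
    rw [h]
    exact isCutPoint_pos hm c' s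
  · intro heq
    have hpre : IsPreconnected (connectedComponentIn {pt a (dir a b)}ᶜ x) :=
      isPreconnected_connectedComponentIn
    have hxm : x ∈ connectedComponentIn {pt a (dir a b)}ᶜ x := mem_connectedComponentIn hxq
    have hym : y ∈ connectedComponentIn {pt a (dir a b)}ᶜ x := by
      rw [heq]; exact mem_connectedComponentIn hyq
    have hq : pt a (dir a b) ∉ connectedComponentIn {pt a (dir a b)}ᶜ x := by
      intro h
      exact connectedComponentIn_subset _ _ h rfl
    rcases preconnected_side hpre hq with h | h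
    · exact h hym hy
    · exact hx (h hxm).1

theorem Separates.symm' {c x y : Rab m} (h : Separates c x y) : Separates c y x :=
  ⟨h.1, h.2.2.1, h.2.1, h.2.2.2.symm⟩

theorem exists_separates (hm : 0 < m) {x y : Rab m} (hxy : ∀ c, ¬ (x ∈ circ c ∧ y ∈ circ c))
    (hne : x ≠ y) : ∃ q, Separates q x y := by
  obtain ⟨c, hc⟩ : ∃ c, x.1 c ≠ y.1 c := by
    by_contra hcon
    push Not at hcon
    exact hne (Rab.ext hcon)
  obtain ⟨d, hdc, hd⟩ : ∃ d, d ≠ c ∧ x.1 d ≠ y.1 d := by
    by_contra hcon
    push Not at hcon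
    apply hxy c
    have h : ∀ d, d ≠ c → x.1 d = dir d c ∧ y.1 d = dir d c := by
      intro d hd
      rcases coord_or (x := x) hd with h1 | h1
      · exact ⟨h1, by rw [← hcon d hd, h1]⟩
      · rcases coord_or (x := y) hd with h2 | h2
        · exact ⟨by rw [hcon d hd, h2], h2⟩
        · exact absurd (h1.trans h2.symm) hc
    exact ⟨mem_circ_iff.2 fun d hd => (h d hd).1, mem_circ_iff.2 fun d hd => (h d hd).2⟩
  by_cases hx : x.1 c = dir c d
  · have hy : y.1 c ≠ dir c d := fun h => hc (hx.trans h.symm)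
    have hyd : y.1 d = dir d c := by
      rcases coord_or (x := y) hdc with h1 | h1
      · exact h1
      · exact absurd h1 hy
    have hxq : x ≠ pt c (dir c d) := by
      intro h
      apply hd
      rw [h, pt_ne hdc, hyd]
    exact ⟨_, (separates_of_coord hm (Ne.symm hdc) hy hx hxq).symm'⟩
  · have hxd : x.1 d = dir d c := by
      rcases coord_or (x := x) hdc with h1 | h1
      · exact h1
      · exact absurd h1 hx
    have hyc : y.1 c = dir c d := by
      rcases coord_or (x := y) hdc with h1 | h1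
      · exact absurd (hxd.trans h1.symm) hd
      · exact h1
    have hyq : y ≠ pt c (dir c d) := by
      intro h
      apply hd
      rw [h, pt_ne hdc, hxd]
    exact ⟨_, separates_of_coord hm (Ne.symm hdc) hx hyc hyq⟩

theorem finite_ancestors (a : Idx m) : {c : Idx m | dir c a ≠ 0}.Finite := by
  induction a with
  | nil => simp
  | cons l w ih =>
    refine (ih.union (finite_singleton w)).subset ?_
    intro c hc
    by_cases hcw : c = w
    · right; exact hcw
    · left
      have hc' : dir c (l :: w) ≠ 0 := hc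
      rwa [dir_cons_of_ne l hcw] at hc'

theorem finite_support_of_mem_circ {a : Idx m} {x : Rab m} (hx : x ∈ circ a) :
    {c : Idx m | x.1 c ≠ 0}.Finite := by
  refine ((finite_ancestors a).union (finite_singleton a)).subset ?_
  intro c hc
  by_cases hca : c = a
  · right; exact hca
  · left
    have hc' : x.1 c ≠ 0 := hc
    rwa [mem_circ_iff.1 hx c hca] at hc'

theorem arc_condition {x y : Rab m} {a b : Idx m} (hx : x ∈ circ a) (hy : y ∈ circ b)
    (A : Set (Rab m)) (h : unitInterval ≃ₜ A) (h0 : (h 0 : Rab m) = x) (h1 : (h 1 : Rab m) = y) :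
    A ⊆ ⋃ c ∈ {c | x.1 c ≠ y.1 c} ∪ {a, b}, circ c := by
  set f : unitInterval → Rab m := fun u => (h u : Rab m) with hf
  have hfc : Continuous f := continuous_subtype_val.comp h.continuous
  have hfi : Function.Injective f := Subtype.val_injective.comp h.injective
  intro z hz
  obtain ⟨u, hu⟩ : ∃ u, f u = z := ⟨h.symm ⟨z, hz⟩, by simp [hf]⟩
  by_cases hzx : z = x
  · exact mem_iUnion₂.2 ⟨a, by simp, hzx ▸ hx⟩
  by_cases hzy : z = y
  · exact mem_iUnion₂.2 ⟨b, by simp, hzy ▸ hy⟩
  -- agreement
  have hagree : ∀ c, x.1 c = y.1 c → z.1 c = x.1 c := by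
    intro c hc
    by_contra hzc
    have key : ∀ v : unitInterval, (f v).1 c = x.1 c → ∃ w ∈ uIcc v u, f w = pt c (x.1 c) := by
      intro v hv
      by_contra hcon
      push Not at hcon
      have hpre : IsPreconnected (f '' uIcc v u) :=
        (isPreconnected_uIcc).image _ hfc.continuousOn
      have hq : pt c (x.1 c) ∉ f '' uIcc v u := by
        rintro ⟨w, hw, hw'⟩
        exact hcon w hw hw'
      rcases preconnected_side hpre hq with h | h
      · exact h (mem_image_of_mem f left_mem_uIcc) hv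
      · apply hzc
        have := (h (mem_image_of_mem f right_mem_uIcc)).1
        rw [hu] at this
        exact this
    obtain ⟨w1, hw1, hfw1⟩ := key 0 (by rw [show f 0 = x from h0])
    obtain ⟨w2, hw2, hfw2⟩ := key 1 (by rw [show f 1 = y from h1, hc])
    have hww : w1 = w2 := hfi (hfw1.trans hfw2.symm)
    subst hww
    rw [uIcc_of_le unitInterval.nonneg'] at hw1
    rw [uIcc_of_ge unitInterval.le_one'] at hw2
    have hwu : w1 = u := le_antisymm hw1.2 hw2.1
    rw [hwu, hu] at hfw1
    apply hzc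
    rw [hfw1, pt_self]
  -- `z` is supported in finite depth
  have hfin : {c : Idx m | z.1 c ≠ 0}.Finite := by
    refine ((finite_support_of_mem_circ hx).union (finite_support_of_mem_circ hy)).subset ?_
    intro c hc
    by_cases hcc : x.1 c = y.1 c
    · left
      have := hagree c hcc
      have hc' : z.1 c ≠ 0 := hc
      rwa [this] at hc'
    · by_cases hx0 : x.1 c = 0
      · right
        intro hy0
        exact hcc (hx0.trans hy0.symm)
      · left; exact hx0
  rcases point_cases z with ⟨e, t, hze, hfib⟩ | ⟨-, e, s, hze⟩ | hend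
  · refine mem_iUnion₂.2 ⟨e, Or.inl ?_, by rw [hze]; exact pt_mem_circ _ _⟩
    intro hxy
    have h2 := hagree e hxy
    apply hzx
    have hxf : x ∈ Fib e t := by
      change x.1 e = t
      rw [← h2, hze, pt_self]
    rw [hfib] at hxf
    rw [hze]; exact hxf.symm
  · obtain ⟨i, hi⟩ := exists_thr_ne (c := e) (s := s) (x := x) (by rw [← hze]; exact Ne.symm hzx)
    refine mem_iUnion₂.2 ⟨thr e s i, Or.inl ?_, ?_⟩
    · intro hxy
      have h2 := hagree _ hxy
      apply hi
      rw [← h2, hze, ← pt_thr e s i, pt_self]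
    · rw [hze, ← pt_thr e s i]; exact pt_mem_circ _ _
  · exfalso
    obtain ⟨N, hN⟩ := (hfin.image List.length).bddAbove
    obtain ⟨c, hc⟩ := mem_circ_of_bounded (x := z) (N := N) fun c hc =>
      hN (mem_image_of_mem List.length hc)
    exact hend c hc

/-- The model is a rabbit. -/
theorem isRabbit_rab (hm : 0 < m) : IsRabbit (Rab m) where
  toIsPeanoContinuum := isPeanoContinuum_rab
  dense_double := by
    refine dense_cut.mono ?_
    rintro x ⟨c, s, rfl⟩
    refine ⟨circ c, circ ((s, ⟨0, hm⟩) :: c), isCircle_circ _, isCircle_circ _, ?_,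
      pt_mem_circ _ _, ?_⟩
    · intro h
      have := circ_injective h
      exact absurd this.symm (by simp)
    · have := pt_cons_zero (s, (⟨0, hm⟩ : Fin m)) c
      rw [← this]
      exact pt_mem_circ _ _
  inter_subsingleton := by
    intro C D hC hD hCD
    obtain ⟨a, rfl⟩ := exists_circ_of_isCircle hC
    obtain ⟨b, rfl⟩ := exists_circ_of_isCircle hD
    exact circ_inter_subsingleton fun h => hCD (by rw [h])
  separated := by
    rintro x y ⟨C, hC, hx⟩ - hE
    have hne : x ≠ y := by
      rintro rfl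
      exact hE C hC ⟨hx, hx⟩
    exact exists_separates hm (fun c => hE (circ c) (isCircle_circ c)) hne
  arc_finite := by
    rintro x y ⟨C, hC, hx⟩ ⟨D, hD, hy⟩ A h h0 h1
    obtain ⟨a, rfl⟩ := exists_circ_of_isCircle hC
    obtain ⟨b, rfl⟩ := exists_circ_of_isCircle hD
    refine ⟨circ '' ({c | x.1 c ≠ y.1 c} ∪ {a, b}), ?_, ?_, ?_⟩
    · refine Set.Finite.image _ (Set.Finite.union ?_ (by simp))
      refine ((finite_support_of_mem_circ hx).union (finite_support_of_mem_circ hy)).subset ?_
      intro c hc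
      by_cases hx0 : x.1 c = 0
      · right
        intro hy0
        exact hc (hx0.trans hy0.symm)
      · left; exact hx0
    · rintro _ ⟨c, -, rfl⟩
      exact isCircle_circ c
    · have := arc_condition hx hy A h h0 h1
      rwa [sUnion_image]

/-- The model `Rab m` is an `(m+1)`-regular rabbit. -/
theorem isRegularRabbit_rab (hm : 0 < m) : IsRegularRabbit (m + 1) (Rab m) where
  toIsRabbit := isRabbit_rab hm
  regular := fun _ hx => order_of_isCutPoint hx

end Pool.Agent.Rabbit
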