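import Mathlib

/-!
Combinatorics of the tree of circles of the `(m+1)`-regular rabbit.

Circles are indexed by finite words; `dir a b` is the position on circle `a` at which circle `b`
is attached (directly or indirectly), `0` being the position of the parent.
-/

open Set

namespace Pool.Agent.Rabbit

/-- The circle `ℝ / ℤ`. -/
abbrev Circ : Type := AddCircle (1 : ℝ)

/-- Attaching positions: the nonzero rational points of `ℝ / ℤ`. -/
def Pos : Type := {t : Circ // t ≠ 0 ∧ ∃ q : ℚ, ((q : ℝ) : Circ) = t}

/-- Indices of circles. -/
abbrev Idx (m : ℕ) : Type := List (Pos × Fin m)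

open Classical in
/-- `dir a b` is the position on the circle `a` in the direction of the circle `b`. -/
noncomputable def dir {m : ℕ} (u : Idx m) : Idx m → Circ
  | [] => 0
  | a :: w => if u = w then a.1.1 else dir u w

variable {m : ℕ}

@[simp] theorem dir_nil (u : Idx m) : dir u [] = 0 := rfl

@[simp] theorem dir_cons_self (w : Idx m) (a : Pos × Fin m) : dir w (a :: w) = a.1.1 := by
  simp [dir]

theorem dir_cons_of_ne {u w : Idx m} (a : Pos × Fin m) (h : u ≠ w) :
    dir u (a :: w) = dir u w := by
  simp [dir, h]

theorem length_lt_of_dir_ne_zero {u w : Idx m} (h : dir u w ≠ 0) : u.length < w.length := by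
  induction w with
  | nil => simp at h
  | cons a w ih =>
    by_cases huw : u = w
    · subst huw; simp
    · rw [dir_cons_of_ne a huw] at h
      have := ih h
      simp only [List.length_cons]; omega

theorem dir_eq_zero_of_length_le {u w : Idx m} (h : w.length ≤ u.length) : dir u w = 0 := by
  by_contra hne
  have := length_lt_of_dir_ne_zero hne
  omega

@[simp] theorem dir_self (u : Idx m) : dir u u = 0 := dir_eq_zero_of_length_le le_rfl

@[simp] theorem dir_cons_left (a : Pos × Fin m) (u : Idx m) : dir (a :: u) u = 0 :=
  dir_eq_zero_of_length_le (by simp)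

theorem dir_asymm {u w : Idx m} (h : dir u w ≠ 0) : dir w u = 0 :=
  dir_eq_zero_of_length_le (length_lt_of_dir_ne_zero h).le

theorem dir_trans {a b c : Idx m} (hab : dir a b ≠ 0) (hbc : dir b c ≠ 0) :
    dir a c = dir a b := by
  induction c with
  | nil => simp at hbc
  | cons x w ih =>
    by_cases hbw : b = w
    · subst hbw
      by_cases hab' : a = b
      · subst hab'; simp at hab
      · rw [dir_cons_of_ne x hab']
    · rw [dir_cons_of_ne x hbw] at hbc
      have h1 := ih hbc
      by_cases haw : a = w
      · subst haw
        exact absurd (dir_asymm hab) hbc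
      · rw [dir_cons_of_ne x haw, h1]

theorem dir_chain {a b c : Idx m} (hac : dir a c ≠ 0) (hbc : dir b c ≠ 0) :
    a = b ∨ dir a b ≠ 0 ∨ dir b a ≠ 0 := by
  induction c with
  | nil => simp at hbc
  | cons x w ih =>
    by_cases haw : a = w
    · by_cases hbw : b = w
      · left; rw [haw, hbw]
      · rw [dir_cons_of_ne x hbw] at hbc
        right; right; rw [haw]; exact hbc
    · rw [dir_cons_of_ne x haw] at hac
      by_cases hbw : b = w
      · right; left; rw [hbw]; exact hac
      · rw [dir_cons_of_ne x hbw] at hbc
        exact ih hac hbc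

/-- The basic tree-like property of directions. -/
theorem dir_tree {a b : Idx m} (hab : a ≠ b) (c : Idx m) :
    dir a c = dir a b ∨ dir b c = dir b a := by
  by_cases h1 : dir a b = 0
  · by_cases h2 : dir b a = 0
    · rw [h1, h2]
      by_contra hcon
      push Not at hcon
      rcases dir_chain hcon.1 hcon.2 with h | h | h
      · exact hab h
      · exact h h1
      · exact h h2
    · by_cases h3 : dir a c = 0
      · left; rw [h3, h1]
      · right; exact dir_trans h2 h3
  · by_cases h3 : dir b c = 0
    · right; rw [h3, dir_asymm h1]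
    · left; exact dir_trans h1 h3

theorem dir_nil_left {d : Idx m} (hd : d ≠ []) : dir [] d ≠ 0 := by
  induction d with
  | nil => exact absurd rfl hd
  | cons x w ih =>
    by_cases hw : ([] : Idx m) = w
    · subst hw; simpa using x.1.2.1
    · rw [dir_cons_of_ne x hw]; exact ih (Ne.symm hw)

/-- A circle in direction `s ≠ 0` from `a` lies at or beyond a child of `a` at position `s`. -/
theorem exists_child {a c : Idx m} (h : dir a c ≠ 0) :
    ∃ l : Pos × Fin m, l.1.1 = dir a c ∧ (c = l :: a ∨ dir (l :: a) c ≠ 0) := by
  induction c with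
  | nil => simp at h
  | cons x w ih =>
    by_cases haw : a = w
    · subst haw
      exact ⟨x, by simp, Or.inl rfl⟩
    · rw [dir_cons_of_ne x haw] at h ⊢
      obtain ⟨l, hl, hw⟩ := ih h
      refine ⟨l, hl, Or.inr ?_⟩
      rcases hw with hw | hw
      · subst hw; simpa using x.1.2.1
      · by_cases h2 : l :: a = w
        · subst h2; simpa using x.1.2.1
        · rw [dir_cons_of_ne x h2]; exact hw

end Pool.Agent.Rabbit
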