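import Mathlib

/-!
Rabbits in the sense of the problem file: Peano continua with dense double points of circles,
separation of points on distinct circles by cut points, and finiteness along arcs.
-/

open Set Topology

namespace Pool.Agent.Rabbit

variable {X : Type*} [TopologicalSpace X]

/-- A circle in `X` is a subset homeomorphic to the unit circle. -/
def IsCircle (C : Set X) : Prop := Nonempty (C ≃ₜ Circle)

/-- The order of a point is the number of connected components of its complement. -/
noncomputable def order (x : X) : ℕ∞ := ENat.card (ConnectedComponents ({x}ᶜ : Set X))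

/-- A cut point is a point of order at least two. -/
def IsCutPoint (x : X) : Prop := 2 ≤ order x

/-- `x` and `y` lie in different connected components of the complement of the cut point `c`. -/
def Separates (c x y : X) : Prop :=
  IsCutPoint c ∧ x ≠ c ∧ y ≠ c ∧ connectedComponentIn {c}ᶜ x ≠ connectedComponentIn {c}ᶜ y

/-- A Peano continuum is a compact, connected, locally connected metrizable space. -/
structure IsPeanoContinuum (X : Type*) [TopologicalSpace X] : Prop where
  compact : CompactSpace X
  connected : ConnectedSpace X
  locallyConnected : LocallyConnectedSpace X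
  metrizable : TopologicalSpace.MetrizableSpace X

/-- Rabbits. -/
structure IsRabbit (X : Type*) [TopologicalSpace X] : Prop extends IsPeanoContinuum X where
  /-- the points lying on at least two circles are dense -/
  dense_double : Dense {x : X | ∃ C D : Set X, IsCircle C ∧ IsCircle D ∧ C ≠ D ∧ x ∈ C ∧ x ∈ D}
  /-- distinct circles meet in at most one point -/
  inter_subsingleton : ∀ C D : Set X, IsCircle C → IsCircle D → C ≠ D → (C ∩ D).Subsingleton
  /-- two points that lie on circles, but not on a common circle, are separated by a cut point -/
  separated : ∀ x y : X, (∃ C : Set X, IsCircle C ∧ x ∈ C) → (∃ D : Set X, IsCircle D ∧ y ∈ D) →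
    (∀ E : Set X, IsCircle E → ¬ (x ∈ E ∧ y ∈ E)) → ∃ c, Separates c x y
  /-- every arc joining two points that lie on circles is contained in a finite union of circles -/
  arc_finite : ∀ x y : X, (∃ C : Set X, IsCircle C ∧ x ∈ C) → (∃ D : Set X, IsCircle D ∧ y ∈ D) →
    ∀ (A : Set X) (h : unitInterval ≃ₜ A), (h 0 : X) = x → (h 1 : X) = y →
      ∃ 𝒞 : Set (Set X), 𝒞.Finite ∧ (∀ C ∈ 𝒞, IsCircle C) ∧ A ⊆ ⋃₀ 𝒞

/-- A rabbit is `n`-regular if all its cut points have order `n`. -/
structure IsRegularRabbit (n : ℕ) (X : Type*) [TopologicalSpace X] : Prop extends IsRabbit X where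
  regular : ∀ x : X, IsCutPoint x → order x = n

end Pool.Agent.Rabbit
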