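import Pool.Agent.Rabbit.Structure

/-!
The model is a Peano continuum.
-/

open Set Topology

namespace Pool.Agent.Rabbit

variable {m : ℕ}

instance : Nonempty (Rab m) := ⟨pt [] 0⟩

theorem isPreconnected_univ_rab : IsPreconnected (univ : Set (Rab m)) := by
  have h : IsPreconnected (univ : Set Circ) := isPreconnected_univ
  have := isPreconnected_coord ([] : Idx m) h
  simpa using this

instance : ConnectedSpace (Rab m) where
  isPreconnected_univ := isPreconnected_univ_rab
  toNonempty := inferInstance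

theorem exists_preconnected_nhds_circ {t : Circ} {V : Set Circ} (hV : V ∈ 𝓝 t) :
    ∃ W ∈ 𝓝 t, IsPreconnected W ∧ W ⊆ V := by
  have h : LocallyConnectedSpace Circ :=
    (QuotientAddGroup.isQuotientMap_mk (AddSubgroup.zmultiples (1 : ℝ))).isCoinducing.locallyConnectedSpace
  exact locallyConnectedSpace_iff_connected_subsets.1 h t V hV

/-- The neighbourhoods in the complement of an end. -/
theorem nhds_end {x : Rab m} (hx : ∀ c, x ∉ circ c) {U : Set (Rab m)} (hU : U ∈ 𝓝 x) :
    ∃ V ∈ 𝓝 x, IsPreconnected V ∧ V ⊆ U := by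
  obtain ⟨F, hF⟩ := exists_finset_of_mem_nhds hU
  obtain ⟨c, hc, hxc⟩ := exists_long_of_not_circ hx (F.sup List.length)
  refine ⟨{y : Rab m | y.1 c ∈ ({0}ᶜ : Set Circ)}, ?_, ?_, ?_⟩
  · exact (isOpen_ne_coord c 0).mem_nhds hxc
  · exact isPreconnected_coord c (isPreconnected_compl_circ 0)
  · intro y hy
    refine hF y fun d hd => ?_
    have hlen : d.length < c.length := lt_of_le_of_lt (Finset.le_sup (f := List.length) hd) hc
    have hne : d ≠ c := by rintro rfl; omega
    rw [coord_of_ne_zero (x := y) hy hlen.le hne, coord_of_ne_zero (x := x) hxc hlen.le hne]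

theorem nhds_simple {a : Idx m} {t : Circ} (h : Fib a t = {pt a t}) {U : Set (Rab m)}
    (hU : U ∈ 𝓝 (pt a t)) : ∃ V ∈ 𝓝 (pt a t), IsPreconnected V ∧ V ⊆ U := by
  obtain ⟨U', hU'U, hU', hx⟩ := mem_nhds_iff.1 hU
  obtain ⟨V, hV, htV, hsub⟩ := exists_nhds_preimage_subset (continuous_coord a)
    (K := univ) isClosed_univ hU' (t := t) (by
      rw [univ_inter]
      change Fib a t ⊆ U'
      rw [h]
      exact singleton_subset_iff.2 hx)
  obtain ⟨W, hW, hWc, hWV⟩ := exists_preconnected_nhds_circ (hV.mem_nhds htV)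
  refine ⟨{y : Rab m | y.1 a ∈ W}, ?_, isPreconnected_coord a hWc, ?_⟩
  · exact (continuous_coord a).continuousAt.preimage_mem_nhds (by simpa using hW)
  · intro y hy
    exact hU'U (hsub ⟨mem_univ _, hWV hy⟩)

theorem nhds_cut (c : Idx m) (s : Pos) {U : Set (Rab m)}
    (hU : U ∈ 𝓝 (pt c s.1)) : ∃ V ∈ 𝓝 (pt c s.1), IsPreconnected V ∧ V ⊆ U := by
  obtain ⟨U', hU'U, hU', hx⟩ := mem_nhds_iff.1 hU
  -- the branch in direction `i`
  set K : Option (Fin m) → Set (Rab m) := fun i =>
    {y | ∀ j, j ≠ i → y.1 (thr c s j) = thrPos s j} with hK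
  have hKc : ∀ i, IsClosed (K i) := by
    intro i
    have : K i = ⋂ j, ⋂ (_ : j ≠ i), {y : Rab m | y.1 (thr c s j) = thrPos s j} := by
      ext y; simp [hK]
    rw [this]
    exact isClosed_iInter fun j => isClosed_iInter fun _ =>
      isClosed_eq (continuous_coord _) continuous_const
  have hfib : ∀ i t, (K i ∩ (fun x : Rab m => x.1 (thr c s i)) ⁻¹' {t}).Nonempty ∧
      IsPreconnected (K i ∩ (fun x : Rab m => x.1 (thr c s i)) ⁻¹' {t}) := by
    intro i t
    refine ⟨⟨pt (thr c s i) t, ?_, ?_⟩, ?_⟩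
    · intro j hj
      rw [pt_ne ((thr_injective c s).ne hj), dir_thr hj]
    · simp
    · by_cases ht : t = thrPos s i
      · have : K i ∩ (fun x : Rab m => x.1 (thr c s i)) ⁻¹' {t} = {pt c s.1} := by
          ext y
          constructor
          · rintro ⟨hy1, hy2⟩
            refine eq_pt_of_thr fun j => ?_
            by_cases hj : j = i
            · subst hj
              exact Eq.trans hy2 ht
            · exact hy1 j hj
          · rintro rfl
            refine ⟨fun j _ => ?_, ?_⟩
            · rw [← pt_thr c s j, pt_self]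
            · change (pt c s.1).1 (thr c s i) = t
              rw [← pt_thr c s i, pt_self, ht]
        rw [this]
        exact isPreconnected_singleton
      · have : K i ∩ (fun x : Rab m => x.1 (thr c s i)) ⁻¹' {t} = Fib (thr c s i) t := by
          ext y
          constructor
          · rintro ⟨_, hy2⟩
            exact hy2
          · intro hy
            refine ⟨fun j hj => ?_, hy⟩
            have hy' : y.1 (thr c s i) = t := hy
            exact thr_unique (Ne.symm hj) (by rw [hy']; exact ht)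
        rw [this]
        exact isPreconnected_fib _ _
  have hq : ∀ i, K i ∩ (fun x : Rab m => x.1 (thr c s i)) ⁻¹' {thrPos s i} ⊆ U' := by
    rintro i y ⟨hy1, hy2⟩
    have : y = pt c s.1 := eq_pt_of_thr fun j => by
      by_cases hj : j = i
      · subst hj; exact hy2
      · exact hy1 j hj
    rw [this]; exact hx
  have hex : ∀ i, ∃ W ∈ 𝓝 (thrPos s i), IsPreconnected W ∧
      K i ∩ (fun x : Rab m => x.1 (thr c s i)) ⁻¹' W ⊆ U' := by
    intro i
    obtain ⟨V, hV, htV, hsub⟩ := exists_nhds_preimage_subset (continuous_coord (thr c s i))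
      (hKc i) hU' (hq i)
    obtain ⟨W, hW, hWc, hWV⟩ := exists_preconnected_nhds_circ (hV.mem_nhds htV)
    exact ⟨W, hW, hWc, (inter_subset_inter_right _ (preimage_mono hWV)).trans hsub⟩
  choose W hW hWc hWU using hex
  refine ⟨⋃ i, K i ∩ (fun x : Rab m => x.1 (thr c s i)) ⁻¹' (W i), ?_, ?_, ?_⟩
  · have h1 : (⋂ i, {y : Rab m | y.1 (thr c s i) ∈ W i}) ∈ 𝓝 (pt c s.1) := by
      rw [Filter.iInter_mem]
      intro i
      refine (continuous_coord (thr c s i)).continuousAt.preimage_mem_nhds ?_
      rw [← pt_thr c s i, pt_self]; exact hW i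
    refine Filter.mem_of_superset h1 ?_
    intro y hy
    rw [mem_iInter] at hy
    by_cases hy0 : ∃ i, y.1 (thr c s i) ≠ thrPos s i
    · obtain ⟨i, hi⟩ := hy0
      refine mem_iUnion.2 ⟨i, fun j hj => thr_unique (Ne.symm hj) hi, hy i⟩
    · push Not at hy0
      exact mem_iUnion.2 ⟨none, fun j _ => hy0 j, hy none⟩
  · refine isPreconnected_iUnion ⟨pt c s.1, ?_⟩ ?_
    · rw [mem_iInter]
      intro i
      refine ⟨fun j _ => ?_, ?_⟩
      · rw [← pt_thr c s j, pt_self]
      · change (pt c s.1).1 (thr c s i) ∈ W i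
        rw [← pt_thr c s i, pt_self]
        exact mem_of_mem_nhds (hW i)
    · intro i
      exact isPreconnected_preimage (continuous_coord (thr c s i)) (hKc i) (hWc i)
        (fun t _ => hfib i t)
  · refine (iUnion_subset fun i => hWU i).trans hU'U

instance : LocallyConnectedSpace (Rab m) := by
  rw [locallyConnectedSpace_iff_connected_subsets]
  intro x U hU
  rcases point_cases x with ⟨a, t, rfl, h⟩ | ⟨-, c, s, rfl⟩ | h
  · exact nhds_simple h hU
  · exact nhds_cut c s hU
  · exact nhds_end h hU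

theorem isPeanoContinuum_rab : IsPeanoContinuum (Rab m) :=
  ⟨inferInstance, inferInstance, inferInstance, inferInstance⟩

end Pool.Agent.Rabbit
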