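import Pool.Agent.Rabbit.Action
import Pool.Agent.Rabbit.CircleMaps

/-!
Rigidity of homeomorphisms of order three of the 3-regular rabbit.
-/

open Set Topology

namespace Pool.Agent.Rabbit

variable {m : ℕ}

/-- `f` fixes the circle `c` pointwise. -/
def FixedOn (f : Rab m ≃ₜ Rab m) (c : Idx m) : Prop := ∀ t, f (pt c t) = pt c t

theorem res_three {f : Rab m ≃ₜ Rab m} (h3 : f ^ 3 = 1) {c : Idx m} (hc : act f c = c) (t : Circ) :
    res f c (res f c (res f c t)) = t := by
  have h : (f ^ 3) (pt c t) = pt c t := by rw [h3]; rfl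
  have h' : f (f (f (pt c t))) = pt c t := h
  rw [apply_pt hc, apply_pt hc, apply_pt hc] at h'
  exact pt_injective c h'

theorem fixedOn_of_fixed {f : Rab m ≃ₜ Rab m} (h3 : f ^ 3 = 1) {c : Idx m} (hc : act f c = c)
    {x : Rab m} (hx : x ∈ circ c) (hfx : f x = x) : FixedOn f c := by
  have hfix : res f c (x.1 c) = x.1 c := by
    rw [res, ← eq_pt_of_mem_circ hx, hfx]
  have := CircleMaps.eq_id_of_fixed (continuous_res f c) (res_three h3 hc) hfix
  intro t
  rw [apply_pt hc, this t]

theorem FixedOn.act_eq {f : Rab m ≃ₜ Rab m} {c : Idx m} (h : FixedOn f c) : act f c = c := by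
  apply circ_injective
  rw [← image_circ]
  ext x
  constructor
  · rintro ⟨_, ⟨t, rfl⟩, rfl⟩
    rw [h t]; exact pt_mem_circ _ _
  · rintro ⟨t, rfl⟩
    exact ⟨pt c t, pt_mem_circ _ _, h t⟩

/-- The permutation of the circles through a fixed cut point. -/
theorem exists_perm {f : Rab m ≃ₜ Rab m} {c : Idx m} {s : Pos}
    (hf : f (pt c s.1) = pt c s.1) :
    ∃ π : Option (Fin m) → Option (Fin m), ∀ i, act f (thr c s i) = thr c s (π i) := by
  have h : ∀ i, ∃ j, act f (thr c s i) = thr c s j := by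
    intro i
    rw [← mem_circ_pt_iff]
    have h1 : pt c s.1 ∈ circ (thr c s i) := mem_circ_pt_iff.2 ⟨i, rfl⟩
    have h2 := mem_circ_act (f := f) h1
    rwa [hf] at h2
  choose π hπ using h
  exact ⟨π, hπ⟩

theorem perm_three {f : Rab m ≃ₜ Rab m} (h3 : f ^ 3 = 1) {c : Idx m} {s : Pos}
    {π : Option (Fin m) → Option (Fin m)} (hπ : ∀ i, act f (thr c s i) = thr c s (π i)) (i) :
    π (π (π i)) = i := by
  apply thr_injective c s
  rw [← hπ, ← hπ, ← hπ, ← act_mul, ← act_mul]
  have : f * f * f = 1 := by rw [← h3, pow_succ, pow_succ, pow_one]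
  rw [this, act_one]

theorem perm3_fixed : ∀ π : Option (Fin 2) → Option (Fin 2), (∀ i, π (π (π i)) = i) →
    ∀ i0, π i0 = i0 → ∀ i, π i = i := by
  decide

theorem fixedOn_thr {f : Rab 2 ≃ₜ Rab 2} (h3 : f ^ 3 = 1) {c : Idx 2} {s : Pos}
    {i0 : Option (Fin 2)} (h : FixedOn f (thr c s i0)) (i : Option (Fin 2)) :
    FixedOn f (thr c s i) := by
  have hp : f (pt c s.1) = pt c s.1 := by
    rw [← pt_thr c s i0]; exact h _
  obtain ⟨π, hπ⟩ := exists_perm hp
  have h0 : π i0 = i0 := by
    apply thr_injective c s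
    rw [← hπ, h.act_eq]
  have hi := perm3_fixed π (perm_three h3 hπ) i0 h0 i
  refine fixedOn_of_fixed h3 (x := pt c s.1) ?_ (mem_circ_pt_iff.2 ⟨i, rfl⟩) hp
  rw [hπ, hi]

/-- A homeomorphism of order three of the 3-regular rabbit which fixes a circle pointwise is
trivial. -/
theorem eq_one_of_fixedOn {f : Rab 2 ≃ₜ Rab 2} (h3 : f ^ 3 = 1) {c : Idx 2} (h : FixedOn f c) :
    f = 1 := by
  have hroot : FixedOn f ([] : Idx 2) := by
    induction c with
    | nil => exact h
    | cons l w ih =>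
      apply ih
      exact fixedOn_thr h3 (c := w) (s := l.1) (i0 := some l.2) h none
  have hall : ∀ d : Idx 2, FixedOn f d := by
    intro d
    induction d with
    | nil => exact hroot
    | cons l w ih => exact fixedOn_thr h3 (c := w) (s := l.1) (i0 := none) ih (some l.2)
  have hclosed : IsClosed {x : Rab 2 | f x = x} := isClosed_eq f.continuous continuous_id
  have hsub : (⋃ c : Idx 2, circ c) ⊆ {x : Rab 2 | f x = x} := by
    intro x hx
    obtain ⟨d, t, rfl⟩ := mem_iUnion.1 hx
    exact hall d t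
  have huniv : closure (⋃ c : Idx 2, circ c) ⊆ {x : Rab 2 | f x = x} :=
    hclosed.closure_subset_iff.2 hsub
  rw [dense_circ.closure_eq] at huniv
  apply Homeomorph.ext
  intro x
  exact huniv (mem_univ x)

theorem perm3_pair : ∀ π ρ : Option (Fin 2) → Option (Fin 2), (∀ i, π (π (π i)) = i) →
    (∀ i, ρ (ρ (ρ i)) = i) → (∀ i, π (ρ i) = ρ (π i)) →
    ∃ i : Fin 3, ∃ j : Fin 3, (i ≠ 0 ∨ j ≠ 0) ∧ π^[i] (ρ^[j] none) = none := by
  decide +kernel

theorem act_pow (f : Rab m ≃ₜ Rab m) (n : ℕ) (c : Idx m) : act (f ^ n) c = (act f)^[n] c := by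
  induction n with
  | zero => simp [act_one]
  | succ n ih => rw [pow_succ', act_mul, ih, Function.iterate_succ_apply']

/-- Two commuting homeomorphisms of order three of the 3-regular rabbit are dependent. -/
theorem exists_trivial_word {f g : Rab 2 ≃ₜ Rab 2} (hf : f ^ 3 = 1) (hg : g ^ 3 = 1)
    (hfg : f * g = g * f) : ∃ i j : ℕ, i < 3 ∧ j < 3 ∧ (i ≠ 0 ∨ j ≠ 0) ∧ f ^ i * g ^ j = 1 := by
  classical
  have hcomm : Commute f g := hfg
  have hword : ∀ i j : ℕ, (f ^ i * g ^ j) ^ 3 = 1 := by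
    intro i j
    rw [(hcomm.pow_pow i j).mul_pow, ← pow_mul, ← pow_mul, mul_comm i 3, mul_comm j 3, pow_mul,
      pow_mul, hf, hg, one_pow, one_pow, one_mul]
  set O : Finset (Idx 2) := (Finset.range 3 ×ˢ Finset.range 3).image
    (fun p => act (f ^ p.1 * g ^ p.2) []) with hO
  have hOne : O.Nonempty := by
    refine Finset.Nonempty.image ⟨(0, 0), by simp⟩ _
  have hmem : ∀ i j : ℕ, act (f ^ i * g ^ j) [] ∈ O := by
    intro i j
    have h1 : f ^ i = f ^ (i % 3) := by
      conv_lhs => rw [← Nat.div_add_mod i 3, pow_add, pow_mul, hf, one_pow, one_mul]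
    have h2 : g ^ j = g ^ (j % 3) := by
      conv_lhs => rw [← Nat.div_add_mod j 3, pow_add, pow_mul, hg, one_pow, one_mul]
    rw [h1, h2, hO, Finset.mem_image]
    refine ⟨(i % 3, j % 3), ?_, rfl⟩
    rw [Finset.mem_product, Finset.mem_range, Finset.mem_range]
    exact ⟨Nat.mod_lt _ (by norm_num), Nat.mod_lt _ (by norm_num)⟩
  have hOf : ∀ c ∈ O, act f c ∈ O := by
    intro c hc
    obtain ⟨p, -, rfl⟩ := Finset.mem_image.1 hc
    rw [← act_mul, ← mul_assoc, ← pow_succ']
    exact hmem _ _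
  have hOg : ∀ c ∈ O, act g c ∈ O := by
    intro c hc
    obtain ⟨p, -, rfl⟩ := Finset.mem_image.1 hc
    rw [← act_mul, ← mul_assoc, (hcomm.symm.pow_right p.1).eq, mul_assoc, ← pow_succ']
    exact hmem _ _
  rcases exists_fixed O hOne with ⟨c, hc⟩ | ⟨b, c, hbc, hp⟩
  · -- a fixed circle
    have hcf := hc f hOf
    have hcg := hc g hOg
    obtain ⟨i, j, hi, hj, hij, t, ht⟩ := CircleMaps.exists_fixed_of_commute
      (continuous_res f c) (continuous_res g c) (res_three hf hcf) (res_three hg hcg) (by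
        intro t
        rw [← res_mul hcg, ← res_mul hcf, hfg])
    refine ⟨i, j, hi, hj, hij, ?_⟩
    have hpow : ∀ (h : Rab 2 ≃ₜ Rab 2), act h c = c → ∀ (n : ℕ) (t : Circ),
        (h ^ n) (pt c t) = pt c ((res h c)^[n] t) := by
      intro h hh n
      induction n with
      | zero => intro t; rfl
      | succ n ih =>
        intro t
        rw [pow_succ', Function.iterate_succ_apply']
        change h ((h ^ n) (pt c t)) = _
        rw [ih, apply_pt hh]
    have hactw : act (f ^ i * g ^ j) c = c := by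
      rw [act_mul, act_pow, act_pow, Function.iterate_fixed hcg, Function.iterate_fixed hcf]
    refine eq_one_of_fixedOn (hword i j) (c := c)
      (fixedOn_of_fixed (hword i j) hactw (pt_mem_circ c t) ?_)
    change (f ^ i) ((g ^ j) (pt c t)) = _
    rw [hpow g hcg, hpow f hcf, ht]
  · -- a fixed cut point
    obtain ⟨c', s, hgate⟩ := gate_pos hbc
    have hpf : f (pt c' s.1) = pt c' s.1 := by
      rw [← hgate]; exact hp f hOf
    have hpg : g (pt c' s.1) = pt c' s.1 := by
      rw [← hgate]; exact hp g hOg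
    obtain ⟨π, hπ⟩ := exists_perm hpf
    obtain ⟨ρ, hρ⟩ := exists_perm hpg
    obtain ⟨i, j, hij, hw⟩ := perm3_pair π ρ (perm_three hf hπ) (perm_three hg hρ) (by
      intro i
      apply thr_injective c' s
      rw [← hπ, ← hρ, ← hρ, ← hπ, ← act_mul, ← act_mul, hfg])
    refine ⟨i, j, i.2, j.2, ?_, ?_⟩
    · rcases hij with h | h
      · left; intro h'; exact h (Fin.ext h')
      · right; intro h'; exact h (Fin.ext h')
    · have hiter : ∀ (h : Rab 2 ≃ₜ Rab 2) (σ : Option (Fin 2) → Option (Fin 2)),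
          (∀ i, act h (thr c' s i) = thr c' s (σ i)) → ∀ (n : ℕ) (i),
          (act h)^[n] (thr c' s i) = thr c' s (σ^[n] i) := by
        intro h σ hσ n
        induction n with
        | zero => intro i; rfl
        | succ n ih =>
          intro i
          rw [Function.iterate_succ_apply', ih, hσ, Function.iterate_succ_apply']
      have hactw : act (f ^ (i : ℕ) * g ^ (j : ℕ)) (thr c' s none) = thr c' s none := by
        rw [act_mul, act_pow, act_pow, hiter g ρ hρ, hiter f π hπ, hw]
      have hfixpow : ∀ (h : Rab 2 ≃ₜ Rab 2), h (pt c' s.1) = pt c' s.1 → ∀ n : ℕ,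
          (h ^ n) (pt c' s.1) = pt c' s.1 := by
        intro h hh n
        induction n with
        | zero => rfl
        | succ n ih =>
          rw [pow_succ']
          change h ((h ^ n) (pt c' s.1)) = _
          rw [ih, hh]
      refine eq_one_of_fixedOn (hword i j) (c := thr c' s none)
        (fixedOn_of_fixed (hword i j) hactw (x := pt c' s.1)
          (mem_circ_pt_iff.2 ⟨none, rfl⟩) ?_)
      change (f ^ (i : ℕ)) ((g ^ (j : ℕ)) (pt c' s.1)) = _
      rw [hfixpow g hpg, hfixpow f hpf]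

end Pool.Agent.Rabbit
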