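import Pool.Agent.Rabbit.Space

/-!
Rotations of three of the four branches at a cut point of the 4-regular rabbit.
-/

open Set Topology

namespace Pool.Agent.Rabbit

variable {m : ℕ}

/-- Relabelling the coordinates along a direction-preserving permutation. -/
def relabel (τ : Equiv.Perm (Idx m)) (hτ : ∀ a b, dir (τ a) (τ b) = dir a b) (x : Rab m) :
    Rab m :=
  ⟨fun c => x.1 (τ c), fun a b hab =>
    (x.2 (τ a) (τ b) (τ.injective.ne hab)).imp (fun h => h.trans (hτ a b))
      (fun h => h.trans (hτ b a))⟩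

theorem continuous_relabel (τ : Equiv.Perm (Idx m)) (hτ : ∀ a b, dir (τ a) (τ b) = dir a b) :
    Continuous (relabel τ hτ) :=
  Continuous.subtype_mk (continuous_pi fun c => continuous_coord (τ c)) _

theorem dir_symm {σ : Equiv.Perm (Idx m)} (hσ : ∀ a b, dir (σ a) (σ b) = dir a b) (a b : Idx m) :
    dir (σ.symm a) (σ.symm b) = dir a b := by
  rw [← hσ]; simp

/-- A permutation of the indices preserving directions induces a homeomorphism. -/
def toHomeo (σ : Equiv.Perm (Idx m)) (hσ : ∀ a b, dir (σ a) (σ b) = dir a b) :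
    Rab m ≃ₜ Rab m where
  toFun := relabel σ.symm (dir_symm hσ)
  invFun := relabel σ hσ
  left_inv x := Rab.ext fun c => by simp [relabel]
  right_inv x := Rab.ext fun c => by simp [relabel]
  continuous_toFun := continuous_relabel _ _
  continuous_invFun := continuous_relabel _ _

theorem toHomeo_apply (σ : Equiv.Perm (Idx m)) (hσ : ∀ a b, dir (σ a) (σ b) = dir a b)
    (x : Rab m) (c : Idx m) : (toHomeo σ hσ x).1 (σ c) = x.1 c := by
  simp [toHomeo, relabel]

theorem toHomeo_pt (σ : Equiv.Perm (Idx m)) (hσ : ∀ a b, dir (σ a) (σ b) = dir a b)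
    (c : Idx m) (t : Circ) : toHomeo σ hσ (pt c t) = pt (σ c) t := by
  refine Rab.ext fun d => ?_
  obtain ⟨e, rfl⟩ := σ.surjective d
  rw [toHomeo_apply]
  by_cases h : e = c
  · subst h; simp
  · rw [pt_ne h, pt_ne (σ.injective.ne h), hσ]

open Classical in
/-- Rotate the three branches attached to the root circle at position `s`. -/
noncomputable def rot (s : Pos) : Idx 3 → Idx 3
  | [] => []
  | [l] => if l.1 = s then [(l.1, l.2 + 1)] else [l]
  | l :: l' :: w => l :: rot s (l' :: w)

theorem rot_nil (s : Pos) : rot s [] = [] := rfl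

theorem rot_single_eq (s : Pos) (j : Fin 3) : rot s [(s, j)] = [(s, j + 1)] := by
  simp [rot]

theorem rot_single_ne {s s' : Pos} (h : s' ≠ s) (j : Fin 3) : rot s [(s', j)] = [(s', j)] := by
  simp [rot, h]

theorem rot_cons_cons (s : Pos) (l l' : Pos × Fin 3) (w : Idx 3) :
    rot s (l :: l' :: w) = l :: rot s (l' :: w) := by
  simp [rot]

theorem rot_cons (s : Pos) (l : Pos × Fin 3) {w : Idx 3} (hw : w ≠ []) :
    rot s (l :: w) = l :: rot s w := by
  cases w with
  | nil => exact absurd rfl hw
  | cons l' w => exact rot_cons_cons s l l' w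

theorem rot_ne_nil (s : Pos) {w : Idx 3} (hw : w ≠ []) : rot s w ≠ [] := by
  cases w with
  | nil => exact absurd rfl hw
  | cons l w =>
    by_cases hw' : w = []
    · subst hw'
      obtain ⟨p, j⟩ := l
      by_cases hp : p = s
      · subst hp; rw [rot_single_eq]; simp
      · rw [rot_single_ne hp]; simp
    · rw [rot_cons s l hw']; simp

theorem rot_three (s : Pos) (w : Idx 3) : rot s (rot s (rot s w)) = w := by
  induction w with
  | nil => rfl
  | cons l w ih =>
    by_cases hw' : w = []
    · subst hw'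
      obtain ⟨p, j⟩ := l
      by_cases hp : p = s
      · subst hp
        rw [rot_single_eq, rot_single_eq, rot_single_eq]
        congr 2
        revert j; decide
      · rw [rot_single_ne hp, rot_single_ne hp, rot_single_ne hp]
    · rw [rot_cons s l hw', rot_cons s l (rot_ne_nil s hw'),
        rot_cons s l (rot_ne_nil s (rot_ne_nil s hw')), ih]

theorem rot_comm (s s' : Pos) (w : Idx 3) : rot s (rot s' w) = rot s' (rot s w) := by
  induction w with
  | nil => rfl
  | cons l w ih =>
    by_cases hw' : w = []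
    · subst hw'
      obtain ⟨p, j⟩ := l
      by_cases hp : p = s
      · subst hp
        by_cases hp' : p = s'
        · subst hp'; rfl
        · rw [rot_single_ne hp', rot_single_eq, rot_single_ne hp']
      · by_cases hp' : p = s'
        · subst hp'
          rw [rot_single_eq, rot_single_ne hp, rot_single_ne hp, rot_single_eq]
        · rw [rot_single_ne hp', rot_single_ne hp, rot_single_ne hp']
    · rw [rot_cons s' l hw', rot_cons s l hw', rot_cons s l (rot_ne_nil s' hw'),
        rot_cons s' l (rot_ne_nil s hw'), ih]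

theorem rot_injective (s : Pos) : Function.Injective (rot s) := by
  intro a b h
  rw [← rot_three s a, h, rot_three s b]

theorem dir_rot (s : Pos) (a b : Idx 3) : dir (rot s a) (rot s b) = dir a b := by
  induction b with
  | nil => rfl
  | cons l w ih =>
    by_cases hw' : w = []
    · subst hw'
      obtain ⟨p, j⟩ := l
      have key : ∀ j' : Fin 3, dir (rot s a) [(p, j')] = dir a [(p, j)] := by
        intro j'
        by_cases ha : a = []
        · subst ha
          rw [rot_nil, dir_cons_self, dir_cons_self]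
        · rw [dir_cons_of_ne _ ha, dir_cons_of_ne _ (rot_ne_nil s ha)]; simp
      by_cases hp : p = s
      · subst hp; rw [rot_single_eq]; exact key _
      · rw [rot_single_ne hp]; exact key _
    · rw [rot_cons s l hw']
      by_cases haw : a = w
      · subst haw
        rw [dir_cons_self, dir_cons_self]
      · rw [dir_cons_of_ne l haw, dir_cons_of_ne l ((rot_injective s).ne haw), ih]

/-- `rot s` as a permutation. -/
noncomputable def rotPerm (s : Pos) : Equiv.Perm (Idx 3) where
  toFun := rot s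
  invFun := fun w => rot s (rot s w)
  left_inv := fun w => rot_three s w
  right_inv := fun w => rot_three s w

/-- The rotation homeomorphism. -/
noncomputable def rotHomeo (s : Pos) : Rab 3 ≃ₜ Rab 3 := toHomeo (rotPerm s) (dir_rot s)

theorem rotHomeo_apply (s : Pos) (x : Rab 3) (c : Idx 3) : (rotHomeo s x).1 (rot s c) = x.1 c :=
  toHomeo_apply (rotPerm s) (dir_rot s) x c

theorem rotHomeo_pt (s : Pos) (c : Idx 3) (t : Circ) : rotHomeo s (pt c t) = pt (rot s c) t :=
  toHomeo_pt (rotPerm s) (dir_rot s) c t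

theorem rotHomeo_three (s : Pos) : rotHomeo s ^ 3 = 1 := by
  apply Homeomorph.ext
  intro x
  change rotHomeo s (rotHomeo s (rotHomeo s x)) = x
  refine Rab.ext fun c => ?_
  conv_lhs => rw [← rot_three s c]
  rw [rotHomeo_apply, rotHomeo_apply, rotHomeo_apply]

theorem rotHomeo_comm (s s' : Pos) : rotHomeo s * rotHomeo s' = rotHomeo s' * rotHomeo s := by
  apply Homeomorph.ext
  intro x
  change rotHomeo s (rotHomeo s' x) = rotHomeo s' (rotHomeo s x)
  refine Rab.ext fun c => ?_
  obtain ⟨d, rfl⟩ := (rotPerm s).surjective c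
  obtain ⟨e, rfl⟩ := (rotPerm s').surjective d
  change (rotHomeo s (rotHomeo s' x)).1 (rot s (rot s' e)) =
    (rotHomeo s' (rotHomeo s x)).1 (rot s (rot s' e))
  rw [rotHomeo_apply, rotHomeo_apply, rot_comm, rotHomeo_apply, rotHomeo_apply]

theorem rotHomeo_pow_pt (s : Pos) (n : ℕ) (c : Idx 3) (t : Circ) :
    (rotHomeo s ^ n) (pt c t) = pt ((rot s)^[n] c) t := by
  induction n with
  | zero => rfl
  | succ n ih =>
    rw [pow_succ', Function.iterate_succ_apply', ← rotHomeo_pt, ← ih]; rfl

theorem rot_iter_eq (s : Pos) (n : ℕ) (j : Fin 3) :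
    (rot s)^[n] [(s, j)] = [(s, (fun x : Fin 3 => x + 1)^[n] j)] := by
  induction n with
  | zero => simp
  | succ n ih =>
    rw [Function.iterate_succ_apply', ih, rot_single_eq, Function.iterate_succ_apply']

theorem rot_iter_ne {s s' : Pos} (h : s' ≠ s) (n : ℕ) (j : Fin 3) :
    (rot s)^[n] [(s', j)] = [(s', j)] := by
  induction n with
  | zero => simp
  | succ n ih => rw [Function.iterate_succ_apply', ih, rot_single_ne h]

theorem pt_single_eq {s : Pos} {i : Fin 3} {t : Circ} (ht : t ≠ 0)
    (h : pt ([(s, i)] : Idx 3) t = pt [(s, 0)] t) : i = 0 := by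
  by_contra hi
  have hne : ([(s, 0)] : Idx 3) ≠ [(s, i)] := by
    intro h'
    simp only [List.cons.injEq, Prod.mk.injEq, true_and, and_true] at h'
    exact hi h'.symm
  have h1 := congrArg (fun x : Rab 3 => x.1 [(s, 0)]) h
  simp only [pt_self] at h1
  rw [pt_ne hne, dir_eq_zero_of_length_le (by simp)] at h1
  exact ht h1.symm

/-- The rotations at two distinct positions generate a group `(ℤ/3)²`. -/
theorem rotHomeo_word {s s' : Pos} (hss : s ≠ s') {i j : ℕ} (hi : i < 3) (hj : j < 3)
    (h : rotHomeo s ^ i * rotHomeo s' ^ j = 1) : i = 0 ∧ j = 0 := by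
  have hcast : ∀ n : ℕ, n < 3 → (fun x : Fin 3 => x + 1)^[n] 0 = 0 → n = 0 := by
    intro n hn h0
    interval_cases n
    · rfl
    · exact absurd h0 (by decide)
    · exact absurd h0 (by decide)
  have ht : s.1 ≠ 0 := s.2.1
  constructor
  · apply hcast i hi
    apply pt_single_eq (s := s) ht
    have h1 : (rotHomeo s ^ i * rotHomeo s' ^ j) (pt [(s, 0)] s.1) = pt [(s, 0)] s.1 := by
      rw [h]; rfl
    change (rotHomeo s ^ i) ((rotHomeo s' ^ j) (pt [(s, 0)] s.1)) = _ at h1
    rw [rotHomeo_pow_pt, rotHomeo_pow_pt, rot_iter_ne hss, rot_iter_eq] at h1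
    exact h1
  · apply hcast j hj
    apply pt_single_eq (s := s') ht
    have h1 : (rotHomeo s ^ i * rotHomeo s' ^ j) (pt [(s', 0)] s.1) = pt [(s', 0)] s.1 := by
      rw [h]; rfl
    change (rotHomeo s ^ i) ((rotHomeo s' ^ j) (pt [(s', 0)] s.1)) = _ at h1
    rw [rotHomeo_pow_pt, rotHomeo_pow_pt, rot_iter_eq, rot_iter_ne hss.symm] at h1
    exact h1

theorem exists_two_pos : ∃ s s' : Pos, s ≠ s' := by
  have h2 : (((1 / 2 : ℚ) : ℝ) : Circ) ≠ 0 := by
    intro h
    obtain ⟨n, hn⟩ := (AddCircle.coe_eq_zero_iff (1 : ℝ)).1 h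
    have hn' : (n : ℝ) = 1 / 2 := by simpa using hn
    have : (2 * n : ℝ) = 1 := by rw [hn']; norm_num
    have h' : 2 * n = 1 := by exact_mod_cast this
    omega
  have h3 : (((1 / 3 : ℚ) : ℝ) : Circ) ≠ 0 := by
    intro h
    obtain ⟨n, hn⟩ := (AddCircle.coe_eq_zero_iff (1 : ℝ)).1 h
    have hn' : (n : ℝ) = 1 / 3 := by simpa using hn
    have : (3 * n : ℝ) = 1 := by rw [hn']; norm_num
    have h' : 3 * n = 1 := by exact_mod_cast this
    omega
  refine ⟨⟨_, h2, _, rfl⟩, ⟨_, h3, _, rfl⟩, ?_⟩
  intro h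
  have h' := congrArg Subtype.val h
  simp only at h'
  have h6 : (((1 / 2 : ℚ) - (1 / 3 : ℚ) : ℝ) : Circ) = 0 := by
    rw [AddCircle.coe_sub, h', sub_self]
  obtain ⟨n, hn⟩ := (AddCircle.coe_eq_zero_iff (1 : ℝ)).1 h6
  have hn' : (n : ℝ) = 1 / 6 := by
    have : (n : ℝ) = ((1 / 2 : ℚ) : ℝ) - ((1 / 3 : ℚ) : ℝ) := by simpa using hn
    rw [this]; norm_num
  have : (6 * n : ℝ) = 1 := by rw [hn']; norm_num
  have h'' : 6 * n = 1 := by exact_mod_cast this
  omega

end Pool.Agent.Rabbit
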