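import Pool.Agent.Rabbit.Comb

/-!
The model `Rab m` of the `(m+1)`-regular rabbit as a closed subspace of a product of circles.
-/

open Set Topology

namespace Pool.Agent.Rabbit

/-- The model of the `(m+1)`-regular rabbit. -/
def Rab (m : ℕ) : Type :=
  {x : Idx m → Circ // ∀ a b, a ≠ b → x a = dir a b ∨ x b = dir b a}

variable {m : ℕ}

instance : TopologicalSpace (Rab m) := instTopologicalSpaceSubtype

theorem Rab.ext {x y : Rab m} (h : ∀ c, x.1 c = y.1 c) : x = y := Subtype.ext (funext h)

theorem continuous_coord (c : Idx m) : Continuous (fun x : Rab m => x.1 c) :=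
  (continuous_apply c).comp continuous_subtype_val

theorem isClosed_rab :
    IsClosed {x : Idx m → Circ | ∀ a b, a ≠ b → x a = dir a b ∨ x b = dir b a} := by
  have : {x : Idx m → Circ | ∀ a b, a ≠ b → x a = dir a b ∨ x b = dir b a} =
      ⋂ a, ⋂ b, ⋂ (_ : a ≠ b), ({x | x a = dir a b} ∪ {x | x b = dir b a}) := by
    ext x; simp
  rw [this]
  refine isClosed_iInter fun a => isClosed_iInter fun b => isClosed_iInter fun _ => ?_
  exact (isClosed_eq (continuous_apply a) continuous_const).union
    (isClosed_eq (continuous_apply b) continuous_const)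

instance : Countable Pos := by
  have h : (Set.range (fun q : ℚ => ((q : ℝ) : Circ))).Countable := countable_range _
  have h2 : {t : Circ | t ≠ 0 ∧ ∃ q : ℚ, ((q : ℝ) : Circ) = t}.Countable :=
    h.mono (fun t ht => ht.2)
  exact h2.to_subtype

instance : Countable (Idx m) := inferInstance

instance : CompactSpace (Rab m) := isCompact_iff_compactSpace.1 isClosed_rab.isCompact

instance : T2Space (Rab m) := by
  unfold Rab; infer_instance

instance : SecondCountableTopology (Rab m) := by
  unfold Rab
  exact TopologicalSpace.Subtype.secondCountableTopology _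

instance : TopologicalSpace.MetrizableSpace (Rab m) :=
  TopologicalSpace.metrizableSpace_of_t3_secondCountable _

/-- The point at position `t` on the circle `c`. -/
noncomputable def pt (c : Idx m) (t : Circ) : Rab m := by
  classical
  exact ⟨fun d => if d = c then t else dir d c, by
    intro a b hab
    by_cases ha : a = c
    · subst ha
      right
      simp [Ne.symm hab]
    · by_cases hb : b = c
      · subst hb
        left
        simp [hab]
      · simpa [ha, hb] using dir_tree hab c⟩

@[simp] theorem pt_self (c : Idx m) (t : Circ) : (pt c t).1 c = t := by simp [pt]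

theorem pt_ne {c d : Idx m} (h : d ≠ c) (t : Circ) : (pt c t).1 d = dir d c := by simp [pt, h]

theorem continuous_pt (c : Idx m) : Continuous (pt c) := by
  refine Continuous.subtype_mk (continuous_pi fun d => ?_) _
  by_cases h : d = c
  · subst h; simpa using continuous_id'
  · simpa [h] using continuous_const

theorem pt_injective (c : Idx m) : Function.Injective (pt c) := fun s t h => by
  have := congrArg (fun x : Rab m => x.1 c) h
  simpa using this

/-- The circle with index `c`. -/
def circ (c : Idx m) : Set (Rab m) := range (pt c)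

theorem mem_circ_iff {c : Idx m} {x : Rab m} : x ∈ circ c ↔ ∀ d, d ≠ c → x.1 d = dir d c := by
  constructor
  · rintro ⟨t, rfl⟩ d hd
    exact pt_ne hd t
  · intro h
    refine ⟨x.1 c, Rab.ext fun d => ?_⟩
    by_cases hd : d = c
    · subst hd; simp
    · rw [pt_ne hd, h d hd]

theorem eq_pt_of_mem_circ {c : Idx m} {x : Rab m} (h : x ∈ circ c) : x = pt c (x.1 c) := by
  obtain ⟨t, rfl⟩ := h
  simp

theorem pt_mem_circ (c : Idx m) (t : Circ) : pt c t ∈ circ c := ⟨t, rfl⟩

theorem pt_cons_zero (l : Pos × Fin m) (c : Idx m) : pt (l :: c) 0 = pt c l.1.1 := by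
  refine Rab.ext fun d => ?_
  by_cases h1 : d = l :: c
  · subst h1
    rw [pt_self, pt_ne (by simp)]; simp
  · rw [pt_ne h1]
    by_cases h2 : d = c
    · subst h2; simp
    · rw [pt_ne h2, dir_cons_of_ne l h2]

/-- Agreement on finitely many coordinates. -/
theorem exists_finset_of_mem_nhds {x : Rab m} {U : Set (Rab m)} (hU : U ∈ 𝓝 x) :
    ∃ F : Finset (Idx m), ∀ y : Rab m, (∀ d ∈ F, y.1 d = x.1 d) → y ∈ U := by
  obtain ⟨V, hVU, hV, hxV⟩ := mem_nhds_iff.1 hU
  obtain ⟨W, hW, rfl⟩ := isOpen_induced_iff.1 hV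
  obtain ⟨F, u, hu, hsub⟩ := isOpen_pi_iff.1 hW x.1 hxV
  refine ⟨F, fun y hy => hVU (hsub ?_)⟩
  intro d hd
  rw [hy d hd]
  exact (hu d hd).2

theorem coord_or {x : Rab m} {a b : Idx m} (h : a ≠ b) : x.1 a = dir a b ∨ x.1 b = dir b a :=
  x.2 a b h

/-- If `x` is supported in bounded depth it lies on a circle. -/
theorem exists_circ_agree (x : Rab m) (N : ℕ) :
    ∃ c : Idx m, c.length ≤ N ∧ ∀ d : Idx m, d.length ≤ N → (pt c (x.1 c)).1 d = x.1 d := by
  classical
  by_cases hex : ∃ k, k ≤ N ∧ ∃ c : Idx m, c.length = k ∧ x.1 c ≠ 0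
  · -- take the maximal such `k`
    obtain ⟨k, ⟨hkN, c, hc, hxc⟩, hmax⟩ : ∃ k, (k ≤ N ∧ ∃ c : Idx m, c.length = k ∧ x.1 c ≠ 0) ∧
        ∀ j, (j ≤ N ∧ ∃ c : Idx m, c.length = j ∧ x.1 c ≠ 0) → j ≤ k := by
      have := Nat.findGreatest_spec (P := fun k => ∃ c : Idx m, c.length = k ∧ x.1 c ≠ 0)
        hex.choose_spec.1 hex.choose_spec.2
      refine ⟨_, ⟨Nat.findGreatest_le N, this⟩, ?_⟩
      intro j hj
      exact Nat.le_findGreatest hj.1 hj.2
    refine ⟨c, hc ▸ hkN, fun d hd => ?_⟩
    by_cases hdc : d = c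
    · subst hdc; simp
    · rw [pt_ne hdc]
      by_cases hxd : x.1 d = 0
      · rw [hxd]
        by_contra hne
        rcases coord_or (x := x) hdc with h | h
        · exact hne (h ▸ hxd)
        · exact hxc (h.trans (dir_asymm hne))
      · rcases coord_or (x := x) hdc with h | h
        · exact h.symm
        · have h1 : dir c d ≠ 0 := h ▸ hxc
          have h2 := length_lt_of_dir_ne_zero h1
          have h3 := hmax d.length ⟨hd, d, rfl, hxd⟩
          omega
  · push Not at hex
    refine ⟨[], by simp, fun d hd => ?_⟩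
    by_cases hdc : d = []
    · subst hdc; simp
    · rw [pt_ne hdc, dir_nil]
      exact (hex d.length hd d rfl).symm

theorem exists_pt_agree (x : Rab m) (F : Finset (Idx m)) :
    ∃ c t, ∀ d ∈ F, (pt c t).1 d = x.1 d := by
  obtain ⟨c, -, hc⟩ := exists_circ_agree x (F.sup List.length)
  exact ⟨c, x.1 c, fun d hd => hc d (Finset.le_sup (f := List.length) hd)⟩

theorem mem_circ_of_bounded {x : Rab m} {N : ℕ} (h : ∀ c : Idx m, x.1 c ≠ 0 → c.length ≤ N) :
    ∃ c, x ∈ circ c := by
  by_cases h0 : ∃ d : Idx m, x.1 d ≠ 0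
  · obtain ⟨c, hcN, hc⟩ := exists_circ_agree x N
    refine ⟨c, mem_circ_iff.2 fun d hd => ?_⟩
    by_cases hdN : d.length ≤ N
    · rw [← hc d hdN, pt_ne hd]
    · have hxd : x.1 d = 0 := by
        by_contra hne
        exact hdN (h d hne)
      rw [hxd, dir_eq_zero_of_length_le]
      omega
  · push Not at h0
    refine ⟨[], mem_circ_iff.2 fun d hd => ?_⟩
    rw [h0 d, dir_nil]

/-- The fiber of a coordinate. -/
def Fib (a : Idx m) (s : Circ) : Set (Rab m) := {x | x.1 a = s}

theorem isClosed_fib (a : Idx m) (s : Circ) : IsClosed (Fib a s) :=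
  isClosed_eq (continuous_coord a) continuous_const

theorem pt_mem_fib (a : Idx m) (s : Circ) : pt a s ∈ Fib a s := by simp [Fib]

theorem circ_subset_fib {a c : Idx m} (h : c ≠ a) : circ c ⊆ Fib a (dir a c) := by
  rintro _ ⟨t, rfl⟩
  exact pt_ne h.symm t

/-- If `s` is not a direction at `a`, the fiber is a point. -/
theorem fib_eq_singleton {a : Idx m} {s : Circ} (h : ∀ d, d ≠ a → dir a d ≠ s) :
    Fib a s = {pt a s} := by
  ext x
  simp only [Fib, mem_ofPred_eq, mem_singleton_iff]
  constructor
  · intro hx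
    have : x ∈ circ a := mem_circ_iff.2 fun d hd => by
      rcases coord_or (x := x) hd with h1 | h1
      · exact h1
      · exact absurd (h1.symm.trans hx) (h d hd)
    rw [eq_pt_of_mem_circ this, hx]
  · rintro rfl; simp

theorem isPreconnected_circ (c : Idx m) : IsPreconnected (circ c) := by
  rw [circ, ← image_univ]
  exact isPreconnected_univ.image _ (continuous_pt c).continuousOn

/-- Chains of circles. -/
theorem isPreconnected_chain {J : Set (Idx m)} {r : Idx m} (hr : r ∈ J)
    (hJ : ∀ c ∈ J, c ≠ r → ∃ l c', c = l :: c' ∧ c' ∈ J) :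
    IsPreconnected (⋃ c ∈ J, circ c) := by
  have key : ∀ c : Idx m, c ∈ J → ∃ t : Set (Rab m), t ⊆ (⋃ c ∈ J, circ c) ∧ circ r ⊆ t ∧
      circ c ⊆ t ∧ IsPreconnected t := by
    intro c
    induction c with
    | nil =>
      intro hc
      by_cases hcr : ([] : Idx m) = r
      · exact ⟨circ r, subset_biUnion_of_mem (u := fun c => circ c) hr, Subset.rfl, by rw [hcr],
          isPreconnected_circ r⟩
      · obtain ⟨l, c', h, -⟩ := hJ _ hc hcr
        exact absurd h (by simp)
    | cons l0 w ih =>
      intro hc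
      by_cases hcr : (l0 :: w) = r
      · exact ⟨circ r, subset_biUnion_of_mem (u := fun c => circ c) hr, Subset.rfl, by rw [hcr],
          isPreconnected_circ r⟩
      · obtain ⟨l, c', h, hc'⟩ := hJ _ hc hcr
        obtain ⟨rfl, rfl⟩ := List.cons.inj h
        obtain ⟨t, ht, hrt, hwt, htc⟩ := ih hc'
        refine ⟨t ∪ circ (l0 :: w), union_subset ht (subset_biUnion_of_mem (u := fun c => circ c) hc),
          hrt.trans subset_union_left, subset_union_right, ?_⟩
        refine IsPreconnected.union (pt w l0.1.1) (hwt (pt_mem_circ _ _)) ?_ htc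
          (isPreconnected_circ _)
        rw [← pt_cons_zero]; exact pt_mem_circ _ _
  refine isPreconnected_of_forall (pt r 0) fun y hy => ?_
  obtain ⟨c, hc, hyc⟩ := mem_iUnion₂.1 hy
  obtain ⟨t, ht, hrt, hct, htc⟩ := key c hc
  exact ⟨t, ht, hrt (pt_mem_circ _ _), hct hyc, htc⟩

theorem mem_closure_of_agree {x : Rab m} {S : Set (Rab m)}
    (h : ∀ F : Finset (Idx m), ∃ y ∈ S, ∀ d ∈ F, y.1 d = x.1 d) : x ∈ closure S := by
  rw [mem_closure_iff_nhds]
  intro U hU
  obtain ⟨F, hF⟩ := exists_finset_of_mem_nhds hU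
  obtain ⟨y, hyS, hy⟩ := h F
  exact ⟨y, hF y hy, hyS⟩

/-- All coordinate fibers are preconnected. -/
theorem isPreconnected_fib (a : Idx m) (s : Circ) : IsPreconnected (Fib a s) := by
  classical
  by_cases hs0 : s = 0
  · subst hs0
    cases a with
    | nil =>
      rw [fib_eq_singleton fun d hd => dir_nil_left hd]
      exact isPreconnected_singleton
    | cons l a' =>
      set J : Set (Idx m) := {c | c ≠ l :: a' ∧ dir (l :: a') c = 0} with hJdef
      have hr : ([] : Idx m) ∈ J := ⟨by simp, rfl⟩
      have hJ : ∀ c ∈ J, c ≠ [] → ∃ l c', c = l :: c' ∧ c' ∈ J := by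
        rintro c ⟨hc1, hc2⟩ hc
        cases c with
        | nil => exact absurd rfl hc
        | cons x w =>
          refine ⟨x, w, rfl, ?_, ?_⟩
          · rintro rfl
            rw [dir_cons_self] at hc2
            exact x.1.2.1 hc2
          · by_cases haw : l :: a' = w
            · rw [← haw, dir_self]
            · rwa [dir_cons_of_ne x haw] at hc2
      have hU := isPreconnected_chain hr hJ
      have ha' : a' ∈ J := ⟨by simp, by simp⟩
      refine hU.subset_closure ?_ ?_
      · intro x hx
        obtain ⟨c, hc, hxc⟩ := mem_iUnion₂.1 hx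
        have := circ_subset_fib hc.1 hxc
        rwa [hc.2] at this
      · intro x hx
        refine mem_closure_of_agree fun F => ?_
        obtain ⟨c, t, hct⟩ := exists_pt_agree x (insert (l :: a') F)
        refine ⟨pt c t, ?_, fun d hd => hct d (Finset.mem_insert_of_mem hd)⟩
        have h1 := hct (l :: a') (Finset.mem_insert_self _ _)
        rw [show x.1 (l :: a') = 0 from hx] at h1
        by_cases hc : c = l :: a'
        · subst hc
          rw [pt_self] at h1
          subst h1
          rw [pt_cons_zero]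
          exact mem_iUnion₂.2 ⟨a', ha', pt_mem_circ _ _⟩
        · rw [pt_ne (Ne.symm hc)] at h1
          exact mem_iUnion₂.2 ⟨c, ⟨hc, h1⟩, pt_mem_circ _ _⟩
  · by_cases hsp : ∃ l : Pos × Fin m, l.1.1 = s
    · obtain ⟨l0, hl0⟩ := hsp
      -- union over children
      have hchild : ∀ l : Pos × Fin m, l.1.1 = s →
          IsPreconnected (⋃ c ∈ {c : Idx m | c = l :: a ∨ dir (l :: a) c ≠ 0}, circ c) := by
        intro l hl
        refine isPreconnected_chain (r := l :: a) (Or.inl rfl) ?_
        rintro c hc hcr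
        cases c with
        | nil =>
          rcases hc with hc | hc
          · exact absurd hc (by simp)
          · exact absurd rfl hc
        | cons x w =>
          refine ⟨x, w, rfl, ?_⟩
          rcases hc with hc | hc
          · exact absurd hc hcr
          · by_cases haw : l :: a = w
            · exact Or.inl haw.symm
            · rw [dir_cons_of_ne x haw] at hc
              exact Or.inr hc
      have hU : IsPreconnected (⋃ l ∈ {l : Pos × Fin m | l.1.1 = s},
          ⋃ c ∈ {c : Idx m | c = l :: a ∨ dir (l :: a) c ≠ 0}, circ c) := by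
        refine isPreconnected_of_forall (pt a s) fun y hy => ?_
        obtain ⟨l, hl, hyl⟩ := mem_iUnion₂.1 hy
        refine ⟨_, subset_biUnion_of_mem (u := fun l : Pos × Fin m =>
          ⋃ c ∈ {c : Idx m | c = l :: a ∨ dir (l :: a) c ≠ 0}, circ c) hl, ?_, hyl, hchild l hl⟩
        refine mem_iUnion₂.2 ⟨l :: a, Or.inl rfl, ?_⟩
        rw [← show l.1.1 = s from hl, ← pt_cons_zero]
        exact pt_mem_circ _ _
      refine hU.subset_closure ?_ ?_
      · intro x hx
        obtain ⟨l, hl, hx⟩ := mem_iUnion₂.1 hx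
        obtain ⟨c, hc, hxc⟩ := mem_iUnion₂.1 hx
        have hl' : l.1.1 = s := hl
        have hdir : dir a c = s := by
          rcases hc with hc | hc
          · rw [hc, dir_cons_self, hl']
          · rw [dir_trans (b := l :: a) (by rw [dir_cons_self]; exact l.1.2.1) hc,
              dir_cons_self, hl']
        have hca : c ≠ a := by
          rintro rfl
          rw [dir_self] at hdir
          exact hs0 hdir.symm
        have := circ_subset_fib hca hxc
        rwa [hdir] at this
      · intro x hx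
        refine mem_closure_of_agree fun F => ?_
        obtain ⟨c, t, hct⟩ := exists_pt_agree x (insert a F)
        refine ⟨pt c t, ?_, fun d hd => hct d (Finset.mem_insert_of_mem hd)⟩
        have h1 := hct a (Finset.mem_insert_self _ _)
        rw [show x.1 a = s from hx] at h1
        by_cases hc : c = a
        · subst hc
          rw [pt_self] at h1
          subst h1
          refine mem_iUnion₂.2 ⟨l0, hl0, mem_iUnion₂.2 ⟨l0 :: c, Or.inl rfl, ?_⟩⟩
          rw [← hl0, ← pt_cons_zero]; exact pt_mem_circ _ _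
        · rw [pt_ne (Ne.symm hc)] at h1
          obtain ⟨l, hl, hcl⟩ := exists_child (a := a) (c := c) (by rw [h1]; exact hs0)
          exact mem_iUnion₂.2 ⟨l, by rw [mem_ofPred_eq, hl, h1],
            mem_iUnion₂.2 ⟨c, hcl, pt_mem_circ _ _⟩⟩
    · rw [fib_eq_singleton]
      · exact isPreconnected_singleton
      · intro d hd hds
        obtain ⟨l, hl, -⟩ := exists_child (a := a) (c := d) (by rw [hds]; exact hs0)
        exact hsp ⟨l, by rw [hl, hds]⟩

/-- Preimages of preconnected sets under maps with preconnected fibers, on a closed set. -/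
theorem isPreconnected_preimage {X Y : Type*} [TopologicalSpace X] [TopologicalSpace Y]
    [CompactSpace X] [T2Space Y] {f : X → Y} (hf : Continuous f) {K : Set X} (hK : IsClosed K)
    {T : Set Y} (hT : IsPreconnected T)
    (hfib : ∀ t ∈ T, (K ∩ f ⁻¹' {t}).Nonempty ∧ IsPreconnected (K ∩ f ⁻¹' {t})) :
    IsPreconnected (K ∩ f ⁻¹' T) := by
  rw [isPreconnected_closed_iff]
  intro u v hu hv hsub hneu hnev
  have hcu : IsClosed (f '' (K ∩ u)) := ((hK.inter hu).isCompact.image hf).isClosed
  have hcv : IsClosed (f '' (K ∩ v)) := ((hK.inter hv).isCompact.image hf).isClosed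
  obtain ⟨t, htT, ⟨a, ⟨haK, hau⟩, hfa⟩, ⟨b, ⟨hbK, hbv⟩, hfb⟩⟩ :
      (T ∩ (f '' (K ∩ u) ∩ f '' (K ∩ v))).Nonempty := by
    refine (isPreconnected_closed_iff.1 hT) _ _ hcu hcv ?_ ?_ ?_
    · intro t ht
      obtain ⟨⟨x, hxK, hxt⟩, -⟩ := hfib t ht
      have hxt' : f x = t := hxt
      rcases hsub ⟨hxK, by rw [mem_preimage, hxt']; exact ht⟩ with h | h
      · exact Or.inl ⟨x, ⟨hxK, h⟩, hxt'⟩
      · exact Or.inr ⟨x, ⟨hxK, h⟩, hxt'⟩
    · obtain ⟨x, ⟨hxK, hxT⟩, hxu⟩ := hneu
      exact ⟨f x, hxT, x, ⟨hxK, hxu⟩, rfl⟩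
    · obtain ⟨x, ⟨hxK, hxT⟩, hxv⟩ := hnev
      exact ⟨f x, hxT, x, ⟨hxK, hxv⟩, rfl⟩
  obtain ⟨x, ⟨hxK, hxt⟩, hxuv⟩ := (isPreconnected_closed_iff.1 (hfib t htT).2) u v hu hv
    (fun x hx => hsub ⟨hx.1, by
      have : f x = t := hx.2
      rw [mem_preimage, this]; exact htT⟩)
    ⟨a, ⟨haK, hfa⟩, hau⟩ ⟨b, ⟨hbK, hfb⟩, hbv⟩
  have hxt' : f x = t := hxt
  exact ⟨x, ⟨hxK, by rw [mem_preimage, hxt']; exact htT⟩, hxuv⟩

/-- The set of points whose `a`-coordinate lies in a preconnected set is preconnected. -/
theorem isPreconnected_coord (a : Idx m) {T : Set Circ} (hT : IsPreconnected T) :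
    IsPreconnected {x : Rab m | x.1 a ∈ T} := by
  have := isPreconnected_preimage (continuous_coord a) (K := univ) isClosed_univ hT
    (fun t _ => by
      rw [univ_inter]
      exact ⟨⟨pt a t, by simp⟩, isPreconnected_fib a t⟩)
  rwa [univ_inter] at this

end Pool.Agent.Rabbit
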