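import Pool.Agent.Rabbit.Space
import Pool.Agent.Rabbit.Defs

/-!
Complements of points in the model, cut points, orders.
-/

open Set Topology

namespace Pool.Agent.Rabbit

variable {m : ℕ}

/-! ### General topology -/

theorem card_connectedComponents_eq {Y ι : Type*} [TopologicalSpace Y] (g : Y → ι)
    (hg : IsLocallyConstant g) (hsurj : Function.Surjective g)
    (hfib : ∀ i, IsPreconnected (g ⁻¹' {i})) :
    ENat.card (ConnectedComponents Y) = ENat.card ι := by
  let _ : TopologicalSpace ι := ⊥
  have : DiscreteTopology ι := ⟨rfl⟩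
  have hc : Continuous g := hg.continuous
  refine ENat.card_congr (Equiv.ofBijective hc.connectedComponentsLift ⟨?_, ?_⟩)
  · intro a b hab
    obtain ⟨x, rfl⟩ := ConnectedComponents.surjective_coe a
    obtain ⟨y, rfl⟩ := ConnectedComponents.surjective_coe b
    rw [hc.connectedComponentsLift_apply_coe, hc.connectedComponentsLift_apply_coe] at hab
    rw [ConnectedComponents.coe_eq_coe']
    exact (hfib (g y)).subset_connectedComponent rfl hab
  · intro i
    obtain ⟨y, rfl⟩ := hsurj i
    exact ⟨y, hc.connectedComponentsLift_apply_coe y⟩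

theorem isPreconnected_compl_circ (t : Circ) : IsPreconnected ({t}ᶜ : Set Circ) := by
  obtain ⟨a, rfl⟩ := QuotientAddGroup.mk_surjective t
  have h := (AddCircle.openPartialHomeomorphCoe (1 : ℝ) a).image_source_eq_target
  have h2 : ((↑) : ℝ → Circ) '' Ioo a (a + 1) = {(a : Circ)}ᶜ := h
  change IsPreconnected ({(a : Circ)}ᶜ : Set Circ)
  rw [← h2]
  exact isPreconnected_Ioo.image _ (AddCircle.continuous_mk' 1).continuousOn

theorem compl_circ_nonempty (t : Circ) : ({t}ᶜ : Set Circ).Nonempty := by
  obtain ⟨a, rfl⟩ := QuotientAddGroup.mk_surjective t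
  have h := (AddCircle.openPartialHomeomorphCoe (1 : ℝ) a).image_source_eq_target
  have h2 : ((↑) : ℝ → Circ) '' Ioo a (a + 1) = {(a : Circ)}ᶜ := h
  change ({(a : Circ)}ᶜ : Set Circ).Nonempty
  rw [← h2]
  exact (nonempty_Ioo.2 (by linarith)).image _

/-- Tube lemma for closed maps on a closed set. -/
theorem exists_nhds_preimage_subset {X Y : Type*} [TopologicalSpace X] [TopologicalSpace Y]
    [CompactSpace X] [T2Space Y] {f : X → Y} (hf : Continuous f) {K : Set X} (hK : IsClosed K)
    {U : Set X} (hU : IsOpen U) {t : Y} (h : K ∩ f ⁻¹' {t} ⊆ U) :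
    ∃ V : Set Y, IsOpen V ∧ t ∈ V ∧ K ∩ f ⁻¹' V ⊆ U := by
  refine ⟨(f '' (K ∩ Uᶜ))ᶜ, ?_, ?_, ?_⟩
  · exact ((hK.inter hU.isClosed_compl).isCompact.image hf).isClosed.isOpen_compl
  · rintro ⟨x, ⟨hxK, hxU⟩, hx⟩
    exact hxU (h ⟨hxK, hx⟩)
  · rintro x ⟨hxK, hx⟩
    by_contra hxU
    exact hx ⟨x, ⟨hxK, hxU⟩, rfl⟩

/-! ### Separation by points of circles -/

theorem isOpen_ne_coord (a : Idx m) (s : Circ) : IsOpen {x : Rab m | x.1 a ≠ s} :=
  isOpen_ne_fun (continuous_coord a) continuous_const

theorem isOpen_fib_diff (a : Idx m) (s : Circ) : IsOpen (Fib a s \ {pt a s}) := by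
  rw [isOpen_iff_mem_nhds]
  rintro x ⟨hx, hne⟩
  have hx' : x.1 a = s := hx
  obtain ⟨d, hd⟩ : ∃ d, x.1 d ≠ (pt a s).1 d := by
    by_contra hcon
    push Not at hcon
    exact hne (Rab.ext hcon)
  have hda : d ≠ a := by
    rintro rfl
    rw [pt_self] at hd
    exact hd hx'
  rw [pt_ne hda] at hd
  have hs : dir a d = s := by
    rcases coord_or (x := x) hda with h | h
    · exact absurd h hd
    · rw [← h, hx']
  refine Filter.mem_of_superset ((isOpen_ne_coord d (dir d a)).mem_nhds hd) ?_
  intro y hy
  refine ⟨?_, ?_⟩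
  · rcases coord_or (x := y) hda with h | h
    · exact absurd h hy
    · change y.1 a = s
      rw [h, hs]
  · rintro rfl
    exact hy (pt_ne hda s)

/-- A preconnected set avoiding `pt a s` lies on one side of it. -/
theorem preconnected_side {a : Idx m} {s : Circ} {T : Set (Rab m)} (hT : IsPreconnected T)
    (hq : pt a s ∉ T) : T ⊆ {x | x.1 a ≠ s} ∨ T ⊆ Fib a s \ {pt a s} := by
  refine hT.subset_or_subset (isOpen_ne_coord a s) (isOpen_fib_diff a s) ?_ ?_
  · rw [Set.disjoint_left]
    intro x hx hx'
    exact hx hx'.1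
  · intro x hx
    by_cases h : x.1 a = s
    · right
      exact ⟨h, fun h' => hq (h' ▸ hx)⟩
    · left; exact h

/-! ### Cut points -/

/-- The circles through the point `pt c s`, `s` an attaching position. -/
def thr (c : Idx m) (s : Pos) : Option (Fin m) → Idx m
  | none => c
  | some j => (s, j) :: c

/-- The position of `pt c s` on the circles through it. -/
def thrPos (s : Pos) : Option (Fin m) → Circ
  | none => s.1
  | some _ => 0

theorem pt_thr (c : Idx m) (s : Pos) (i : Option (Fin m)) :
    pt (thr c s i) (thrPos s i) = pt c s.1 := by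
  cases i with
  | none => rfl
  | some j => exact pt_cons_zero (s, j) c

theorem dir_thr {c : Idx m} {s : Pos} {i j : Option (Fin m)} (h : i ≠ j) :
    dir (thr c s i) (thr c s j) = thrPos s i := by
  cases i with
  | none =>
    cases j with
    | none => exact absurd rfl h
    | some j => simp [thr, thrPos]
  | some i =>
    cases j with
    | none => simp [thr, thrPos]
    | some j =>
      simp only [thr, thrPos]
      rw [dir_cons_of_ne]
      · simp
      · simp

theorem thr_injective (c : Idx m) (s : Pos) : Function.Injective (thr c s) := by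
  intro i j h
  cases i with
  | none =>
    cases j with
    | none => rfl
    | some j =>
      simp only [thr] at h
      exact absurd h.symm (by simp)
  | some i =>
    cases j with
    | none =>
      simp only [thr] at h
      exact absurd h (by simp)
    | some j =>
      simp only [thr, List.cons.injEq, Prod.mk.injEq, true_and, and_true] at h
      rw [h]

theorem eq_pt_of_thr {c : Idx m} {s : Pos} {x : Rab m}
    (h : ∀ i, x.1 (thr c s i) = thrPos s i) : x = pt c s.1 := by
  have h0 : x.1 c = s.1 := h none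
  refine Rab.ext fun d => ?_
  by_cases hdc : d = c
  · subst hdc; rw [pt_self, h0]
  · rw [pt_ne hdc]
    rcases coord_or (x := x) hdc with h1 | h1
    · exact h1
    · have hds : dir c d = s.1 := by rw [← h1, h0]
      obtain ⟨l, hl, hd⟩ := exists_child (a := c) (c := d) (by rw [hds]; exact s.2.1)
      have hls : l.1 = s := Subtype.ext (by rw [hl, hds])
      have hl2 : l = (s, l.2) := by rw [← hls]
      have hx : x.1 (l :: c) = 0 := by rw [hl2]; exact h (some l.2)
      rcases hd with hd | hd
      · rw [hd, hx, dir_cons_left]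
      · have hne : d ≠ l :: c := by
          rintro rfl; simp at hd
        have h2 : x.1 d = dir d (l :: c) := by
          rcases coord_or (x := x) hne with h3 | h3
          · exact h3
          · rw [hx] at h3; exact absurd h3.symm hd
        rw [h2]
        have hlen := length_lt_of_dir_ne_zero hd
        rw [dir_eq_zero_of_length_le hlen.le, dir_eq_zero_of_length_le]
        simp only [List.length_cons] at hlen
        omega

theorem exists_thr_ne {c : Idx m} {s : Pos} {x : Rab m} (h : x ≠ pt c s.1) :
    ∃ i, x.1 (thr c s i) ≠ thrPos s i := by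
  by_contra hcon
  push Not at hcon
  exact h (eq_pt_of_thr hcon)

theorem thr_unique {c : Idx m} {s : Pos} {x : Rab m} {i j : Option (Fin m)} (hij : i ≠ j)
    (h : x.1 (thr c s i) ≠ thrPos s i) : x.1 (thr c s j) = thrPos s j := by
  rcases coord_or (x := x) ((thr_injective c s).ne hij) with h1 | h1
  · rw [dir_thr hij] at h1; exact absurd h1 h
  · rw [h1, dir_thr hij.symm]

/-- The order of the cut points. -/
theorem order_pt_pos (c : Idx m) (s : Pos) : order (pt c s.1) = (m : ℕ∞) + 1 := by
  classical
  set q := pt c s.1 with hq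
  have hex : ∀ x : ({q}ᶜ : Set (Rab m)), ∃ i, x.1.1 (thr c s i) ≠ thrPos s i := fun x =>
    exists_thr_ne x.2
  choose g hg using hex
  have huniq : ∀ (x : ({q}ᶜ : Set (Rab m))) (i), x.1.1 (thr c s i) ≠ thrPos s i → g x = i := by
    intro x i hi
    by_contra hne
    exact hg x (thr_unique (Ne.symm hne) hi)
  have hfib : ∀ i, g ⁻¹' {i} = Subtype.val ⁻¹' {x : Rab m | x.1 (thr c s i) ≠ thrPos s i} := by
    intro i
    ext x
    constructor
    · intro hx
      have : g x = i := hx
      rw [← this]; exact hg x
    · intro hx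
      exact huniq x i hx
  have hcard := card_connectedComponents_eq g ?_ ?_ ?_
  · rw [order, hcard, ENat.card_eq_coe_fintype_card]
    simp
  · rw [IsLocallyConstant.iff_isOpen_fiber]
    intro i
    rw [hfib]
    exact (isOpen_ne_coord _ _).preimage continuous_subtype_val
  · intro i
    obtain ⟨t, ht⟩ := compl_circ_nonempty (thrPos s i)
    have hne : pt (thr c s i) t ≠ q := by
      rw [hq, ← pt_thr c s i]
      exact (pt_injective _).ne ht
    exact ⟨⟨pt (thr c s i) t, hne⟩, huniq _ i (by simpa using ht)⟩
  · intro i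
    rw [hfib]
    have h1 : IsPreconnected {x : Rab m | x.1 (thr c s i) ≠ thrPos s i} :=
      isPreconnected_coord (thr c s i) (isPreconnected_compl_circ (thrPos s i))
    refine h1.preimage_of_isOpenMap Subtype.val_injective ?_ ?_
    · exact (isOpen_compl_singleton).isOpenMap_subtype_val
    · intro x hx
      rw [Subtype.range_coe]
      rintro rfl
      refine hx ?_
      rw [hq, ← pt_thr c s i]
      simp

theorem order_le_one_of_preconnected {x : Rab m} (h : IsPreconnected ({x}ᶜ : Set (Rab m))) :
    order x ≤ 1 := by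
  rw [order, ENat.card_le_one_iff_subsingleton]
  have : PreconnectedSpace ({x}ᶜ : Set (Rab m)) := isPreconnected_iff_preconnectedSpace.1 h
  infer_instance

/-- Points in ends and non-attaching positions have connected complement. -/
theorem compl_preconnected_of_fib {a : Idx m} {t : Circ} (h : Fib a t = {pt a t}) :
    IsPreconnected ({pt a t}ᶜ : Set (Rab m)) := by
  have : ({pt a t}ᶜ : Set (Rab m)) = {x : Rab m | x.1 a ∈ ({t}ᶜ : Set Circ)} := by
    rw [← h]; ext x; simp [Fib]
  rw [this]
  exact isPreconnected_coord a (isPreconnected_compl_circ t)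

theorem exists_long_of_not_circ {x : Rab m} (hx : ∀ c, x ∉ circ c) (N : ℕ) :
    ∃ c : Idx m, N < c.length ∧ x.1 c ≠ 0 := by
  by_contra hcon
  push Not at hcon
  obtain ⟨c, hc⟩ := mem_circ_of_bounded (x := x) (N := N) (fun c hc => by
    by_contra hlt
    exact hc (hcon c (by omega)))
  exact hx c hc

/-- If `x c ≠ 0` then all shallower coordinates are determined. -/
theorem coord_of_ne_zero {x : Rab m} {c d : Idx m} (hc : x.1 c ≠ 0) (hd : d.length ≤ c.length)
    (hne : d ≠ c) : x.1 d = dir d c := by
  rcases coord_or (x := x) hne with h | h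
  · exact h
  · exact absurd (h.trans (dir_eq_zero_of_length_le hd)) hc

theorem compl_preconnected_of_end {x : Rab m} (hx : ∀ c, x ∉ circ c) :
    IsPreconnected ({x}ᶜ : Set (Rab m)) := by
  have key : ∀ y : Rab m, y ≠ x → ∃ N, ∀ c : Idx m, N ≤ c.length → x.1 c ≠ 0 → y.1 c ≠ x.1 c := by
    intro y hy
    obtain ⟨d, hd⟩ : ∃ d, y.1 d ≠ x.1 d := by
      by_contra hcon
      push Not at hcon
      exact hy (Rab.ext hcon)
    refine ⟨d.length + 1, fun c hc hxc hyc => hd ?_⟩
    have hne : d ≠ c := by rintro rfl; omega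
    rw [coord_of_ne_zero (x := y) (by rw [hyc]; exact hxc) (by omega) hne,
      coord_of_ne_zero (x := x) hxc (by omega) hne]
  refine isPreconnected_of_forall_pair ?_
  intro y hy z hz
  obtain ⟨N1, h1⟩ := key y hy
  obtain ⟨N2, h2⟩ := key z hz
  obtain ⟨c, hc, hxc⟩ := exists_long_of_not_circ hx (max N1 N2)
  refine ⟨{w : Rab m | w.1 c ∈ ({x.1 c}ᶜ : Set Circ)}, ?_, ?_, ?_, ?_⟩
  · rintro w hw rfl
    exact hw rfl
  · exact h1 c (le_trans (le_max_left _ _) hc.le) hxc
  · exact h2 c (le_trans (le_max_right _ _) hc.le) hxc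
  · exact isPreconnected_coord c (isPreconnected_compl_circ _)

/-- Classification of points. -/
theorem point_cases (x : Rab m) :
    (∃ a t, x = pt a t ∧ Fib a t = {pt a t}) ∨ (0 < m ∧ ∃ (c : Idx m) (s : Pos), x = pt c s.1) ∨
      (∀ c, x ∉ circ c) := by
  by_cases hx : ∃ c, x ∈ circ c
  · obtain ⟨c, t, rfl⟩ := hx
    by_cases ht0 : t = 0
    · subst ht0
      cases c with
      | nil =>
        left
        exact ⟨[], 0, rfl, fib_eq_singleton fun d hd => dir_nil_left hd⟩
      | cons l c' =>
        right; left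
        exact ⟨lt_of_le_of_lt (Nat.zero_le _) l.2.2, c', l.1, pt_cons_zero l c'⟩
    · by_cases htp : ∃ l : Pos × Fin m, l.1.1 = t
      · obtain ⟨l, rfl⟩ := htp
        right; left
        exact ⟨lt_of_le_of_lt (Nat.zero_le _) l.2.2, c, l.1, rfl⟩
      · left
        refine ⟨c, t, rfl, fib_eq_singleton fun d hd hds => htp ?_⟩
        obtain ⟨l, hl, -⟩ := exists_child (a := c) (c := d) (by rw [hds]; exact ht0)
        exact ⟨l, by rw [hl, hds]⟩
  · push Not at hx
    exact Or.inr (Or.inr hx)

/-- All cut points have order `m + 1`. -/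
theorem order_of_isCutPoint {x : Rab m} (hx : IsCutPoint x) : order x = ((m + 1 : ℕ) : ℕ∞) := by
  rcases point_cases x with ⟨a, t, rfl, h⟩ | ⟨-, c, s, rfl⟩ | h
  · have h1 := order_le_one_of_preconnected (compl_preconnected_of_fib h)
    have h2 : (2 : ℕ∞) ≤ 1 := le_trans hx h1
    exact absurd h2 (by decide)
  · rw [order_pt_pos]; simp
  · have h1 := order_le_one_of_preconnected (compl_preconnected_of_end h)
    have h2 : (2 : ℕ∞) ≤ 1 := le_trans hx h1
    exact absurd h2 (by decide)

end Pool.Agent.Rabbit
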